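import Mathlib
import Pool.Agent.V5helper56.DU.All
import Pool.Agent.V5helper56.DU.Rep
import Pool.Agent.V5helper56.LI.Cyc

/-!
# Everywhere unramified representations of `p`-extensions in which `p` does not split

Let `p` be a prime, and let `K ⊂ ℚ̄` be a number field (totally complex if `p = 2`) with exactly one
prime above `p`, whose class number is prime to `p`. Let `T` be a finite set of primes of `K` not above
`p` such that for each of them some `p`-unit of `K` is not a `p`-th power modulo this prime, but is a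
`p`-th power modulo all others. (So every extension of `K` of degree `p` which is unramified outside `T`
and in which the prime above `p` splits completely is trivial. As a rule, `T` can have as many elements
as the group of `p`-units modulo `p`-th powers has generators.)

(1) Let `E` be a subfield of a finite Galois extension `F/K` of `p`-power degree which is unramified
outside `p` and `T`. Then the Galois group of the maximal `p`-extension of `E` in which no finite prime
ramifies is finite and abelian, and its order is at most `[F : K] ^ (|T| + 1)`. So the `p`-class field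
tower of `E` has length at most one, and the unramified Fontaine-Mazur conjecture holds for `E`:
all residually unipotent continuous representations of the absolute Galois group of `E` over Noetherian
local rings of residue characteristic `p`, which are unramified at all finite primes, have finite
abelian image.

(2) Every residually unipotent continuous representation of the absolute Galois group of `K`, over a
Noetherian local ring of residue characteristic `p`, which is unramified outside `p` and `T` (except
possibly at primes with norm `≢ 1 mod p`) and potentially unramified at all finite primes, has finite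
image.

Examples are `K = ℚ`, `p` odd, `T = {l}` for a prime number `l` such that `p` is not a `p`-th power
modulo `l`, and `K = ℚ(ζ_p)`, `p` regular and odd, with `T` the prime above `l`, where `l` is a primitive
root modulo `p` with `l ^ (p - 1) ≢ 1 mod p²`. The Galois group of the maximal `p`-extension of `ℚ`
unramified outside `p` and `l ≡ 1 mod p` is infinite and not abelian (a quotient, with one relation, of
the free pro-`p` group with two generators).

Proof. Characters of `Gal(ℚ̄/K)` of order `p` which are trivial on the decomposition groups at `p` and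
ramified at most at primes of `T` are trivial (Herbrand quotient of `p`-units, see
`MP_b583a4_nt.DecompositionImages`), so by Burnside's theorem the decomposition group `D` at `p` is dense
in the maximal quotient `G` of `Gal(ℚ̄/K)` considered. Now let `G'` be a finite quotient of `G` in which
all inertia groups have at most `c` elements. The commutators of elements of `D` lie in the inertia group
`I`, so every subgroup of `G'` containing the image of `I` is normal. As `K` has no everywhere unramified
extension of degree `p`, the group `G'` is generated by the image of `I` and the inertia groups at the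
`t` primes of `T` (one for each); so it has at most `c ^ (t + 1)` elements. For (1) one uses the group
of an everywhere unramified extension of `F`.
-/

set_option autoImplicit false

namespace Pool.Agent.Results.MP_ca71b5_nt.FiniteTowers

open NumberField Matrix IsLocalRing

/-- An algebraic closure of `ℚ`. -/
abbrev QBar : Type := AlgebraicClosure ℚ

/-- The absolute Galois group of `ℚ`, with its Krull topology. -/
abbrev AbsGal : Type := QBar ≃ₐ[ℚ] QBar

/-- The ring of all algebraic integers. -/
def ZBar : Type := 𝓞 QBar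

noncomputable instance : CommRing ZBar := inferInstanceAs (CommRing (𝓞 QBar))

/-- The action of the absolute Galois group on the ring of all algebraic integers. -/
noncomputable def gal (σ : AbsGal) : ZBar →+* ZBar :=
  MulSemiringAction.toRingHom AbsGal (𝓞 QBar) σ

/-- Algebraic extensions of `ℚ` in `ℚ̄`. -/
abbrev Ext : Type := IntermediateField ℚ QBar

/-- The ring of integers of `K`. -/
def RingOf (K : Ext) : Type := 𝓞 K

noncomputable instance (K : Ext) : CommRing (RingOf K) := inferInstanceAs (CommRing (𝓞 K))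

/-- The absolute Galois group of `K`. -/
noncomputable def GalOf (K : Ext) : Subgroup AbsGal := K.fixingSubgroup

/-- The restriction to `K` of a prime ideal of the ring of all algebraic integers. -/
noncomputable def below (K : Ext) (Q : Ideal ZBar) : Ideal (RingOf K) :=
  Ideal.comap (algebraMap (𝓞 K) (𝓞 QBar)) Q

/-- The inertia group at the prime ideal `P` of the ring of all algebraic integers. -/
def Inertia (P : Ideal ZBar) : Set AbsGal := {σ | ∀ x : ZBar, gal σ x - x ∈ P}

/-- `K` has at most one prime above `p`. -/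
def OnePrimeAbove (p : ℕ) (K : Ext) : Prop :=
  ∀ 𝔭 𝔮 : Ideal (RingOf K), 𝔭.IsPrime → 𝔮.IsPrime → (p : RingOf K) ∈ 𝔭 → (p : RingOf K) ∈ 𝔮 → 𝔭 = 𝔮

/-- `𝔭` is a prime of `K` not above `p`, and some `p`-unit `u` of `K`, that is, `u ∈ 𝓞_K` divides a power
of `p`, is not a `p`-th power modulo `𝔭`, but is a `p`-th power modulo all other members of `T`. -/
def Independent (p : ℕ) (K : Ext) (T : Set (Ideal (RingOf K))) (𝔭 : Ideal (RingOf K)) : Prop :=
  𝔭.IsMaximal ∧ (p : RingOf K) ∉ 𝔭 ∧ ∃ u : RingOf K, (∃ m : ℕ, u ∣ (p : RingOf K) ^ m) ∧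
    (∀ z : RingOf K, u - z ^ p ∉ 𝔭) ∧ ∀ 𝔭' ∈ T, 𝔭' ≠ 𝔭 → ∃ z : RingOf K, u - z ^ p ∈ 𝔭'

/-- `K` is a number field with one prime above `p`, its class number is prime to `p`, `K` is totally
complex if `p = 2`, and `T` is a finite set of primes of `K` not above `p` such that for all `𝔭 ∈ T` some
`p`-unit of `K` is a `p`-th power modulo all members of `T` but `𝔭`. -/
structure Good (p : ℕ) (K : Ext) (T : Set (Ideal (RingOf K))) : Prop where
  finite : FiniteDimensional ℚ K
  infinity : p ≠ 2 ∨ IsTotallyComplex K
  one : OnePrimeAbove p K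
  cls : ¬ p ∣ Nat.card (ClassGroup (𝓞 K))
  fin : T.Finite
  tame : ∀ 𝔭 ∈ T, Independent p K T 𝔭

/-- `Q` is not above `p`, and its restriction to `K` is not in `T` and its norm is `1` modulo `p`. -/
def Away (p : ℕ) (K : Ext) (T : Set (Ideal (RingOf K))) (Q : Ideal ZBar) : Prop :=
  Q.IsMaximal ∧ (p : ZBar) ∉ Q ∧ below K Q ∉ T ∧ p ∣ Nat.card (RingOf K ⧸ below K Q) - 1

/-- `F` is a finite Galois extension of `K` whose degree is a power of `p`. -/
structure GaloisP (p : ℕ) (K F : Ext) : Prop where
  finite : FiniteDimensional ℚ F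
  le : K ≤ F
  normal : ∀ g ∈ GalOf K, ∀ σ ∈ GalOf F, g * σ * g⁻¹ ∈ GalOf F
  power : ∀ g ∈ GalOf K, ∃ m : ℕ, g ^ p ^ m ∈ GalOf F

/-- `F` is a finite Galois extension of `K` of degree a power of `p`, unramified at all primes which are
not above `p` and not in `T` (the primes with norm `≢ 1` modulo `p` are automatically unramified). -/
def POutside (p : ℕ) (K : Ext) (T : Set (Ideal (RingOf K))) (F : Ext) : Prop :=
  GaloisP p K F ∧ ∀ Q, Away p K T Q → ∀ σ ∈ Inertia Q, σ ∈ GalOf K → σ ∈ GalOf F

/-- `L` is a finite Galois extension of `E` of degree a power of `p`, unramified at all finite primes. -/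
def Unramified (p : ℕ) (E L : Ext) : Prop :=
  GaloisP p E L ∧ ∀ Q : Ideal ZBar, Q.IsMaximal → ∀ σ ∈ Inertia Q, σ ∈ GalOf E → σ ∈ GalOf L

/-- The degree of `F` over `K`, for `K ≤ F`. -/
noncomputable def degree (K F : Ext) : ℕ := (GalOf F).relIndex (GalOf K)

/-- The Galois group of the maximal `p`-extension of `E` in which no finite prime ramifies is abelian
and has at most `B` elements: this holds for the degrees and Galois groups of all finite Galois extensions
`L` of `E` of `p`-power degree unramified at all finite primes. -/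
def TowerBounded (p : ℕ) (E : Ext) (B : ℕ) : Prop :=
  ∀ L, Unramified p E L → degree E L ≠ 0 ∧ degree E L ≤ B ∧
    ∀ a ∈ GalOf E, ∀ b ∈ GalOf E, a * b * a⁻¹ * b⁻¹ ∈ GalOf L

/-- Representations of the absolute Galois group of `E` over the ring `A`, of dimension `n`. -/
abbrev Rep (E : Ext) (A : Type) [CommRing A] (n : ℕ) : Type := GalOf E →* GL (Fin n) A

section
variable {A : Type} [CommRing A] {n : ℕ} {E : Ext}

/-- The matrix `ρ σ`. -/
noncomputable def mat (ρ : Rep E A n) (σ : GalOf E) : Matrix (Fin n) (Fin n) A := ρ σ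

/-- The matrix `X` modulo the maximal ideal is unipotent. -/
def UnipotentMod [IsLocalRing A] (X : Matrix (Fin n) (Fin n) A) : Prop :=
  ∃ M : ℕ, ∀ i j, ((X - 1) ^ M) i j ∈ maximalIdeal A

/-- `ρ` is continuous, and all matrices `ρ σ` are unipotent modulo the maximal ideal. -/
structure Admissible [IsLocalRing A] [TopologicalSpace A] (ρ : Rep E A n) : Prop where
  cont : ∀ i j, Continuous fun σ => mat ρ σ i j
  res : ∀ σ, UnipotentMod (mat ρ σ)

/-- The restriction of the representation `ρ` of the absolute Galois group of `E` to the absolute Galois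
group of `E E'` is unramified at all finite primes. -/
def UnramifiedOver (E' : Ext) (ρ : Rep E A n) : Prop :=
  ∀ Q : Ideal ZBar, Q.IsMaximal → ∀ σ : GalOf E, (σ : AbsGal) ∈ Inertia Q → (σ : AbsGal) ∈ GalOf E' →
    mat ρ σ = 1

/-- The representation is unramified at all primes not above `p` and not in `T` whose norm is `1` modulo
`p`. -/
def UnramifiedAway (p : ℕ) (T : Set (Ideal (RingOf E))) (ρ : Rep E A n) : Prop :=
  ∀ Q, Away p E T Q → ∀ σ : GalOf E, (σ : AbsGal) ∈ Inertia Q → mat ρ σ = 1

/-- The image of `ρ` is finite. -/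
def FiniteImage (ρ : Rep E A n) : Prop := (Set.range (mat ρ)).Finite

/-- The image of `ρ` is abelian. -/
def AbelianImage (ρ : Rep E A n) : Prop := ∀ a b, mat ρ (a * b) = mat ρ (b * a)

end

/-- `A` is a Noetherian local ring of residue characteristic `p` with the adic topology. -/
structure Coefficients (p : ℕ) (A : Type) [CommRing A] [IsLocalRing A] [TopologicalSpace A] : Prop where
  noetherian : IsNoetherianRing A
  adic : IsAdic (maximalIdeal A)
  char : (p : A) ∈ maximalIdeal A

/-- All residually unipotent continuous representations of the absolute Galois group of `E` over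
Noetherian local rings of residue characteristic `p` (with the adic topology), which are unramified at
all finite primes, have finite abelian image. -/
def FontaineMazurFor (p : ℕ) (E : Ext) : Prop :=
  ∀ (A : Type) [CommRing A] [IsLocalRing A] [TopologicalSpace A], Coefficients p A →
    ∀ (n : ℕ) (ρ : Rep E A n), Admissible ρ → UnramifiedOver E ρ → FiniteImage ρ ∧ AbelianImage ρ

/-- All residually unipotent continuous representations of the absolute Galois group of `K` over
Noetherian local rings of residue characteristic `p` (with the adic topology), which are unramified at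
all primes not above `p` and not in `T` whose norm is `1` modulo `p`, and unramified at all finite primes
over some number field, have finite image. -/
def PotentiallyUnramifiedFinite (p : ℕ) (K : Ext) (T : Set (Ideal (RingOf K))) : Prop :=
  ∀ (A : Type) [CommRing A] [IsLocalRing A] [TopologicalSpace A], Coefficients p A →
    ∀ (n : ℕ) (ρ : Rep K A n), Admissible ρ → UnramifiedAway p T ρ →
    (∃ K' : Ext, FiniteDimensional ℚ K' ∧ UnramifiedOver K' ρ) → FiniteImage ρ

/-- The field of rational numbers is good for `p ≠ 2`, with `T` the set of the prime `l`, if `p` is not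
a `p`-th power modulo `l`. -/
def RationalsGood (p : ℕ) : Prop :=
  p ≠ 2 → ∀ l : ℕ, l.Prime → (∀ x : ZMod l, x ^ p ≠ (p : ZMod l)) →
    Good p ⊥ {𝔮 | 𝔮.IsMaximal ∧ (l : RingOf ⊥) ∈ 𝔮}

/-- For regular `p ≠ 2` the field of `p`-th roots of unity is good, with `T` the set of the prime
above `l`, where `l` is a primitive root modulo `p` with `l ^ (p - 1) ≢ 1` modulo `p ^ 2`. -/
def PrimitiveRootsGood (p : ℕ) : Prop :=
  ∀ C : Ext, p ≠ 2 → IsCyclotomicExtension {p} ℚ C → ¬ p ∣ Nat.card (ClassGroup (𝓞 C)) →
    ∀ l : ℕ, l.Prime → orderOf (l : ZMod p) = p - 1 → ¬ p ^ 2 ∣ l ^ (p - 1) - 1 →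
    Good p C {𝔮 | 𝔮.IsMaximal ∧ (l : RingOf C) ∈ 𝔮}

/-! ### Proofs -/

theorem Good.nf {p : ℕ} {K : Ext} {T : Set (Ideal (RingOf K))} (hG : Good p K T) : NumberField K := by
  haveI := hG.finite
  exact NumberField.mk

theorem card_class (K : Ext) [NumberField K] : Nat.card (ClassGroup (𝓞 K)) = classNumber K :=
  Nat.card_eq_fintype_card

theorem away {p : ℕ} {K : Ext} [NumberField K] {T : Set (Ideal (RingOf K))} {Q : Ideal (𝓞 QBar)}
    (hQ : Q.IsMaximal) (hpQ : (p : 𝓞 QBar) ∉ Q) (hQT : Q.under (𝓞 K) ∉ T)
    (hQn : p ∣ Ideal.absNorm (Q.under (𝓞 K)) - 1) : Away p K T Q := by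
  refine ⟨hQ, hpQ, hQT, ?_⟩
  rw [Ideal.absNorm_apply, Submodule.cardQuot_apply] at hQn
  exact hQn

theorem exists_prime (p : ℕ) [hp : Fact p.Prime] : ∃ P : Ideal (𝓞 QBar), P.IsMaximal ∧ (p : 𝓞 QBar) ∈ P := by
  have h1 : ¬ IsUnit (p : 𝓞 QBar) := by
    intro h
    obtain ⟨y, hy⟩ := h.exists_right_inv
    have h2 : IsIntegral ℤ ((p : ℚ)⁻¹) := by
      have h3 : ((y : 𝓞 QBar) : QBar) = algebraMap ℚ QBar ((p : ℚ)⁻¹) := by
        have h5 : (p : QBar) * (y : QBar) = 1 := by
          have h6 := congrArg (algebraMap (𝓞 QBar) QBar) hy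
          rw [map_mul, map_natCast, map_one] at h6
          exact h6
        rw [map_inv₀, map_natCast]
        exact eq_inv_of_mul_eq_one_right h5
      have h7 : IsIntegral ℤ ((y : 𝓞 QBar) : QBar) := y.2
      rw [h3] at h7
      exact (isIntegral_algebraMap_iff (algebraMap ℚ QBar).injective).1 h7
    obtain ⟨z, hz⟩ := IsIntegrallyClosed.isIntegral_iff.1 h2
    have h8 : (p : ℚ) * z = 1 := by
      rw [show (z : ℚ) = (p : ℚ)⁻¹ from hz]
      exact mul_inv_cancel₀ (by exact_mod_cast hp.out.ne_zero)
    have h9 : (p : ℤ) * z = 1 := by exact_mod_cast h8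
    have h10 : (p : ℤ) ∣ 1 := ⟨z, h9.symm⟩
    exact hp.out.not_dvd_one (by exact_mod_cast h10)
  obtain ⟨P, hP, hpP⟩ := exists_max_ideal_of_mem_nonunits h1
  exact ⟨P, hP, hpP⟩

theorem pext {p : ℕ} {K F : Ext} [NumberField K] {T : Set (Ideal (RingOf K))} (hF : POutside p K T F) :
    Pool.Agent.V5helper56.DU.PExt p K T (GalOf F) := by
  haveI := hF.1.finite
  exact ⟨IntermediateField.fixingSubgroup_isOpen F, IntermediateField.fixingSubgroup_le hF.1.le,
    hF.1.normal, hF.1.power, fun Q hQ hpQ hQT hQn σ hσ hσK => hF.2 Q (away hQ hpQ hQT hQn) σ hσ hσK⟩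

theorem range_finite {A : Type} [CommRing A] {n : ℕ} {E : Ext} {ρ : Rep E A n}
    (h : (Set.range ρ).Finite) : FiniteImage ρ := by
  have h1 : Set.range (mat ρ) = (fun x : GL (Fin n) A => (x : Matrix (Fin n) (Fin n) A)) '' Set.range ρ := by
    rw [← Set.range_comp]
    rfl
  unfold FiniteImage
  rw [h1]
  exact h.image _

theorem main {p : ℕ} [Fact p.Prime] {K : Ext} {T : Set (Ideal (RingOf K))} (hG : Good p K T) :
    (∀ E F : Ext, POutside p K T F → K ≤ E → E ≤ F →
      TowerBounded p E (degree K F ^ (Nat.card T + 1)) ∧ FontaineMazurFor p E) ∧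
    PotentiallyUnramifiedFinite p K T := by
  haveI := hG.finite
  haveI := hG.nf
  have hcls : ¬ p ∣ classNumber K := by rw [← card_class]; exact hG.cls
  obtain ⟨P, hP, hpP⟩ := exists_prime p
  refine ⟨fun E F hF hKE hEF => ⟨fun L hL => ?_, ?_⟩, ?_⟩
  · haveI := hL.1.finite
    exact Pool.Agent.V5helper56.DU.tower Pool.Agent.V5helper56.DU.chr K hG.infinity hG.one hcls hG.fin
      hG.tame (pext hF) (IntermediateField.fixingSubgroup_le hEF) (IntermediateField.fixingSubgroup_le hKE)
      (IntermediateField.fixingSubgroup_le hL.1.le) (IntermediateField.fixingSubgroup_isOpen L) hL.1.normal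
      hL.1.power hL.2 hP hpP
  · intro A _ _ _ hA n ρ hρ hunr
    haveI := hA.noetherian
    obtain ⟨h3, h4⟩ := Pool.Agent.V5helper56.DU.rep_unr Pool.Agent.V5helper56.DU.chr K hG.infinity hG.one
      hcls hG.fin hG.tame (pext hF) (IntermediateField.fixingSubgroup_le hEF)
      (IntermediateField.fixingSubgroup_le hKE) hA.adic hA.char ρ hρ.cont hρ.res
      (fun Q hQ σ hσ => Units.ext (hunr Q hQ σ hσ σ.2)) hP hpP
    exact ⟨range_finite h3, fun a b => congrArg Units.val (h4 a b)⟩
  · intro A _ _ _ hA n ρ hρ hram ⟨K', hK', hunr⟩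
    haveI := hK'
    haveI := hA.noetherian
    exact range_finite (Pool.Agent.V5helper56.DU.rep_pot Pool.Agent.V5helper56.DU.chr K hG.infinity hG.one
      hcls hG.fin hG.tame hA.adic hA.char ρ hρ.cont hρ.res
      (fun Q hQ hpQ hQT hQn σ hσ => Units.ext (hram Q (away hQ hpQ hQT hQn) σ hσ))
      K'.fixingSubgroup (IntermediateField.fixingSubgroup_isOpen K')
      (fun Q hQ σ hσ hσK => Units.ext (hunr Q hQ σ hσ hσK)) hP hpP)

theorem rationalsGood (p : ℕ) [hp : Fact p.Prime] : RationalsGood p := by
  intro hp2 l hl hpl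
  obtain ⟨h1, h2, h3, h4, h5⟩ := Pool.Agent.V5helper56.DU.rat_good (p := p) hl hpl
  refine ⟨inferInstance, Or.inl hp2, h1, ?_, h3, fun 𝔮 h𝔮 => ⟨h𝔮.1, h4 𝔮 h𝔮.1 h𝔮.2,
    (p : RingOf ⊥), ⟨1, by rw [pow_one]⟩, (h5 𝔮 h𝔮.1 h𝔮.2).1, fun 𝔮' h𝔮' hne =>
      absurd ((h5 𝔮 h𝔮.1 h𝔮.2).2 𝔮' h𝔮'.1 h𝔮'.2) hne⟩⟩
  haveI : IsPrincipalIdealRing (𝓞 (⊥ : Ext)) :=
    IsPrincipalIdealRing.of_surjective (Int.castRingHom (𝓞 (⊥ : Ext)))
      (fun x => Pool.Agent.V5helper56.DU.int_surj x)
  haveI : NumberField (⊥ : Ext) := NumberField.mk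
  rw [card_class, (classNumber_eq_one_iff).2 inferInstance]
  exact hp.out.not_dvd_one

theorem primitiveRootsGood (p : ℕ) [hp : Fact p.Prime] : PrimitiveRootsGood p := by
  intro C hp2 hC hcl q hq hord hq2
  haveI := hC
  haveI : NumberField C := IsCyclotomicExtension.numberField {p} ℚ C
  have huniq : ∀ 𝔮 ∈ {𝔮 : Ideal (𝓞 C) | 𝔮.IsMaximal ∧ (q : 𝓞 C) ∈ 𝔮},
      ∀ 𝔮' ∈ {𝔮 : Ideal (𝓞 C) | 𝔮.IsMaximal ∧ (q : 𝓞 C) ∈ 𝔮}, 𝔮 = 𝔮' := fun 𝔮 h 𝔮' h' =>
    Pool.Agent.V5helper56.LI.cyc_inert (p := p) hq hord h.1.isPrime h'.1.isPrime h.2 h'.2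
  refine ⟨inferInstance, Or.inl hp2, fun 𝔭 𝔮 h𝔭 h𝔮 hp𝔭 hp𝔮 => ?_, hcl, Set.Subsingleton.finite fun 𝔮 h 𝔮' h' =>
    huniq 𝔮 h 𝔮' h', fun 𝔮 h => ?_⟩
  · haveI : IsCyclotomicExtension {p ^ (0 + 1)} ℚ C := by rw [zero_add, pow_one]; exact hC
    exact Pool.Agent.V5helper56.LI.cyc_one (p := p) 0 h𝔭 h𝔮 hp𝔭 hp𝔮
  · obtain ⟨h1, u, hu⟩ := Pool.Agent.V5helper56.LI.cyc_unit (p := p) hq hord hq2 h.1 h.2
    exact ⟨h.1, h1, (u : 𝓞 C), ⟨0, by rw [pow_zero]; exact isUnit_iff_dvd_one.1 u.isUnit⟩, hu,
      fun 𝔮' h' hne => absurd (huniq 𝔮' h' 𝔮 h) hne⟩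

/-- **Finite class field towers and the unramified conjecture of Fontaine and Mazur for `p`-extensions in
which `p` does not split.** -/
theorem result (p : ℕ) [Fact p.Prime] :
    (∀ (K : Ext) (T : Set (Ideal (RingOf K))), Good p K T →
      (∀ E F : Ext, POutside p K T F → K ≤ E → E ≤ F →
        TowerBounded p E (degree K F ^ (Nat.card T + 1)) ∧ FontaineMazurFor p E) ∧
      PotentiallyUnramifiedFinite p K T) ∧
    RationalsGood p ∧ PrimitiveRootsGood p :=
  ⟨fun _ _ hG => main hG, rationalsGood p, primitiveRootsGood p⟩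

end Pool.Agent.Results.MP_ca71b5_nt.FiniteTowers
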