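import Mathlib
import Pool.Agent.V5helper56.DU.All
import Pool.Agent.V5helper56.EQ.Inv

/-!
# Potentially unramified representations: a criterion for eigenspaces

Let `p` be a prime, `F` a number field, and `K/F` a finite abelian extension of exponent dividing `p - 1`
with exactly one prime above `p`, for example `F = ℚ` and `K = ℚ(ζ_p)`. Let `T` be a finite set of primes
of `K`, and let `θ_1, …, θ_n` be characters of `Gal(K/F)` with values in `𝔽_p^×`.

Let `ρ : Gal(F̄/F) → GL_n(A)` be a continuous representation over a Noetherian local ring of residue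
characteristic `p` whose reduction is upper triangular with diagonal characters `θ_1, …, θ_n`, and which
is unramified over `K` at the primes `𝔮 ∤ p`, `𝔮 ∉ T`, with `N 𝔮 ≡ 1 mod p`. Assume that none of the
characters `θ_i / θ_j` of `Gal(K/F)` (all `i`, `j`) occurs in the Galois group of the maximal elementary
abelian `p`-extension of `K` which is unramified at the finite primes outside `T` and in which the primes
above `p` split completely (by class field theory, if `K` is totally complex, or `p ≠ 2`, this group is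
the ray class group modulo `p` of `𝓞_K[1/p]` with conductor `∏ T`). Then the
decomposition group at `p` and the whole Galois group have the same image under `ρ`, over `K` and over
`F`. If moreover `F` has no extension of degree `p` unramified at all finite primes, and if `ρ` is
potentially unramified at all finite primes, then `ρ` has finite image.

So for `F = ℚ`, `K = ℚ(ζ_p)`, `p` odd, `T = ∅` the regularity of `p` is not needed: only the
eigenspaces of the class group of `ℚ(ζ_p)` for the characters `θ_i / θ_j`, `θ_i ≠ θ_j`, must be trivial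
(for example for `p = 37` all eigenspaces except the one of `ω ^ 5` are trivial). No character at all
occurs if the class number of `𝓞_K[1/p]` is prime to `p` and the primes in `T` are independent modulo
`p`-th powers of `p`-units.

Proof. If the decomposition group `D` at `p` over `K` is not dense in the image of `Gal(F̄/K)`, there is
(Burnside) a character `f` of `Gal(F̄/K)` of order `p` which factors over `ρ` modulo a power of the
maximal ideal and which is trivial on `D`. As `Gal(K/F)` has exponent dividing `p - 1` and `Gal(F̄/F)` is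
generated by `Gal(F̄/K)` and the decomposition group over `F`, one can take `f` to be an eigenvector of
`Gal(K/F)` with some character `χ`. The filtration of the group of matrices which are upper unipotent
modulo the maximal ideal shows that `χ` is one of the `θ_i / θ_j`. If the inertia groups have finite
images, then finiteness follows as in `FiniteTowers`: modulo the finite normal image of the inertia group
at `p` the image is commutative, `Gal(K/F)` operates trivially on it, and the subgroup generated by the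
finite inertia groups at the primes of `T` is everything, because otherwise there is an everywhere
unramified character of order `p` of `Gal(F̄/K)` which is invariant under `Gal(K/F)`, and it extends to
`Gal(F̄/F)`.
-/

set_option autoImplicit false

namespace Pool.Agent.Results.MP_ca71b5_nt.Eigenspaces

open NumberField Matrix IsLocalRing

section
variable (F : Type) [Field F]

/-- An algebraic closure of `F`. -/
abbrev Bar : Type := AlgebraicClosure F

/-- The absolute Galois group of `F`, with its Krull topology. -/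
abbrev AbsGal : Type := Bar F ≃ₐ[F] Bar F

/-- The ring of all algebraic integers. -/
def ZBar : Type := 𝓞 (Bar F)

noncomputable instance : CommRing (ZBar F) := inferInstanceAs (CommRing (𝓞 (Bar F)))

/-- Algebraic extensions of `F` in the algebraic closure. -/
abbrev Ext : Type := IntermediateField F (Bar F)

end

section
variable {F : Type} [Field F]

/-- The action of the absolute Galois group on the ring of all algebraic integers. -/
noncomputable def gal (σ : AbsGal F) : ZBar F →+* ZBar F :=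
  MulSemiringAction.toRingHom (AbsGal F) (𝓞 (Bar F)) σ

/-- The ring of integers of `K`. -/
def RingOf (K : Ext F) : Type := 𝓞 K

noncomputable instance (K : Ext F) : CommRing (RingOf K) := inferInstanceAs (CommRing (𝓞 K))

/-- The absolute Galois group of `K`. -/
noncomputable def GalOf (K : Ext F) : Subgroup (AbsGal F) := K.fixingSubgroup

/-- The restriction to `K` of a prime ideal of the ring of all algebraic integers. -/
noncomputable def below (K : Ext F) (Q : Ideal (ZBar F)) : Ideal (RingOf K) :=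
  Ideal.comap (algebraMap (𝓞 K) (𝓞 (Bar F))) Q

/-- The inertia group at the prime ideal `P` of the ring of all algebraic integers. -/
def Inertia (P : Ideal (ZBar F)) : Set (AbsGal F) := {σ | ∀ x : ZBar F, gal σ x - x ∈ P}

/-- The decomposition group at the prime ideal `P` of the ring of all algebraic integers. -/
def Decomposition (P : Ideal (ZBar F)) : Set (AbsGal F) := {σ | ∀ x : ZBar F, gal σ x ∈ P ↔ x ∈ P}

/-- `K` has at most one prime above `p`. -/
def OnePrimeAbove (p : ℕ) (K : Ext F) : Prop :=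
  ∀ 𝔭 𝔮 : Ideal (RingOf K), 𝔭.IsPrime → 𝔮.IsPrime → (p : RingOf K) ∈ 𝔭 → (p : RingOf K) ∈ 𝔮 → 𝔭 = 𝔮

/-- `Q` is not above `p`, and its restriction to `K` is not in `T` and its norm is `1` modulo `p`. -/
def Away (p : ℕ) (K : Ext F) (T : Set (Ideal (RingOf K))) (Q : Ideal (ZBar F)) : Prop :=
  Q.IsMaximal ∧ (p : ZBar F) ∉ Q ∧ below K Q ∉ T ∧ p ∣ Nat.card (RingOf K ⧸ below K Q) - 1

/-- `K` is a finite abelian extension of `F` of exponent dividing `p - 1` with one prime above `p`. -/
structure TameAbelian (p : ℕ) (K : Ext F) : Prop where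
  finite : FiniteDimensional F K
  normal : (GalOf K).Normal
  comm : ∀ a b : AbsGal F, a * b * a⁻¹ * b⁻¹ ∈ GalOf K
  exp : ∀ a : AbsGal F, a ^ (p - 1) ∈ GalOf K
  one : OnePrimeAbove p K

/-- Characters of the absolute Galois group of `F` with values in `𝔽_p^×`. -/
abbrev Chr (F : Type) [Field F] (p : ℕ) : Type := AbsGal F →* (ZMod p)ˣ

/-- On the subgroup `N` of the absolute Galois group, `f` is a continuous homomorphism to `ℤ/p`. -/
def IsHom {p : ℕ} (N : Subgroup (AbsGal F)) (f : AbsGal F → ZMod p) : Prop :=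
  (∀ g ∈ N, ∀ h ∈ N, f (g * h) = f g + f h) ∧
    ∃ U : Subgroup (AbsGal F), IsOpen (U : Set (AbsGal F)) ∧ ∀ g ∈ N, g ∈ U → f g = 0

/-- `f` is a nonzero continuous homomorphism from the absolute Galois group of `K` to `ℤ/p` with
`f (σ g σ⁻¹) = χ(σ) f(g)` for all `σ` in the absolute Galois group of `F`. -/
def EigenHom {p : ℕ} (K : Ext F) (χ : Chr F p) (f : AbsGal F → ZMod p) : Prop :=
  IsHom (GalOf K) f ∧ (∃ g ∈ GalOf K, f g ≠ 0) ∧
    ∀ σ : AbsGal F, ∀ g ∈ GalOf K, σ * g * σ⁻¹ ∈ GalOf K → f (σ * g * σ⁻¹) = (χ σ : ZMod p) * f g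

/-- The character `χ` occurs in the Galois group of the maximal elementary abelian `p`-extension of `K`
which is unramified at all finite primes outside `T` and in which the primes above `p` split
completely. -/
def Occurs (p : ℕ) (K : Ext F) (T : Set (Ideal (RingOf K))) (χ : Chr F p) : Prop :=
  ∃ f : AbsGal F → ZMod p, EigenHom K χ f ∧
    (∀ Q : Ideal (ZBar F), Q.IsMaximal → (p : ZBar F) ∉ Q → below K Q ∉ T →
      ∀ g ∈ Inertia Q, g ∈ GalOf K → f g = 0) ∧
    ∀ Q : Ideal (ZBar F), Q.IsMaximal → (p : ZBar F) ∈ Q →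
      ∀ g ∈ Decomposition Q, g ∈ GalOf K → f g = 0

/-- `F` has no cyclic extension of degree `p` which is unramified at all finite primes. -/
def NoUnramified (p : ℕ) (F : Type) [Field F] : Prop :=
  ∀ f : AbsGal F → ZMod p, IsHom ⊤ f →
    (∀ Q : Ideal (ZBar F), Q.IsMaximal → ∀ σ ∈ Inertia Q, f σ = 0) → ∀ σ, f σ = 0

end

/-- `A` is a Noetherian local ring of residue characteristic `p` with the adic topology. -/
structure Coefficients (p : ℕ) (A : Type) [CommRing A] [IsLocalRing A] [TopologicalSpace A] : Prop where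
  noetherian : IsNoetherianRing A
  adic : IsAdic (maximalIdeal A)
  char : (p : A) ∈ maximalIdeal A

section
variable {F : Type} [Field F] {A : Type} [CommRing A] {n : ℕ}

/-- The matrix `ρ σ`. -/
noncomputable def mat (ρ : AbsGal F →* GL (Fin n) A) (σ : AbsGal F) : Matrix (Fin n) (Fin n) A := ρ σ

/-- `ρ` is continuous, its reduction is upper triangular with the diagonal characters `θ i`, which are
trivial over `K`, and over `K` it is unramified at all primes not above `p` and not in `T` whose norm is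
`1` modulo `p`. -/
structure Admissible [IsLocalRing A] [TopologicalSpace A] (p : ℕ) (K : Ext F)
    (T : Set (Ideal (RingOf K))) (θ : Fin n → Chr F p) (ρ : AbsGal F →* GL (Fin n) A) : Prop where
  cont : ∀ i j, Continuous fun σ => mat ρ σ i j
  overK : ∀ i, ∀ σ ∈ GalOf K, θ i σ = 1
  upper : ∀ σ i j, j < i → mat ρ σ i j ∈ maximalIdeal A
  diagonal : ∀ σ i, mat ρ σ i i - (((θ i σ : (ZMod p)ˣ) : ZMod p).val : A) ∈ maximalIdeal A
  ram : ∀ Q, Away p K T Q → ∀ σ ∈ Inertia Q, σ ∈ GalOf K → mat ρ σ = 1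

/-- The image of `E` is contained in the image of `D`. -/
def Image (ρ : AbsGal F →* GL (Fin n) A) (D E : Set (AbsGal F)) : Prop :=
  ∀ g ∈ E, ∃ δ ∈ D, mat ρ g = mat ρ δ

/-- Over some number field `K'` the representation is unramified at all finite primes. -/
def PotentiallyUnramified (ρ : AbsGal F →* GL (Fin n) A) : Prop :=
  ∃ K' : Ext F, FiniteDimensional F K' ∧ ∀ Q : Ideal (ZBar F), Q.IsMaximal → ∀ σ ∈ Inertia Q,
    σ ∈ GalOf K' → mat ρ σ = 1

/-- The image of `ρ` is finite. -/
def FiniteImage (ρ : AbsGal F →* GL (Fin n) A) : Prop := (Set.range (mat ρ)).Finite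

/-- The conclusion of the theorem: the images of the decomposition group at `P` and of the whole Galois
group agree, over `K` and over `F`; if `F` has no cyclic extension of degree `p` unramified at all finite
primes and `ρ` is potentially unramified at all finite primes, then the image is finite. -/
structure Conclusion (p : ℕ) (K : Ext F) (ρ : AbsGal F →* GL (Fin n) A) (P : Ideal (ZBar F)) : Prop where
  overK : Image ρ (Decomposition P ∩ GalOf K) (GalOf K)
  overF : Image ρ (Decomposition P) Set.univ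
  finite : NoUnramified p F → PotentiallyUnramified ρ → FiniteImage ρ

end

/-- For `p ≠ 2` the field of rational numbers has no cyclic extension of degree `p` unramified at all
finite primes; the field `C` of `p`-th roots of unity is an extension as in the theorem, and the trivial
character does not occur for it (`p ≠ 2`, `T` empty). -/
def CyclotomicCase (p : ℕ) : Prop :=
  (p ≠ 2 → NoUnramified p ℚ) ∧ ∀ C : Ext ℚ, IsCyclotomicExtension {p} ℚ C →
    TameAbelian p C ∧ (p ≠ 2 → ¬ Occurs p C ∅ 1)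

section
variable {F : Type} [Field F]

/-- The class number of `𝓞_K[1/p]` is prime to `p`: for each ideal `I ≠ 0` of `𝓞_K` the product of
`I ^ n`, for some `n` prime to `p`, and of an ideal dividing a power of `p` is a principal ideal. -/
def ClassNumberAwayPrime (p : ℕ) (K : Ext F) : Prop :=
  ∀ I : Ideal (RingOf K), I ≠ ⊥ → ∃ (n m : ℕ) (a : RingOf K) (J : Ideal (RingOf K)), ¬ p ∣ n ∧
    J ∣ Ideal.span {(p : RingOf K)} ^ m ∧ Ideal.span {a} = I ^ n * J

/-- `𝔭` is a prime of `K` not above `p`, and some `p`-unit `u` of `K`, that is, `u ∈ 𝓞_K` divides a power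
of `p`, is not a `p`-th power modulo `𝔭`, but is a `p`-th power modulo all other members of `T`. -/
def Independent (p : ℕ) (K : Ext F) (T : Set (Ideal (RingOf K))) (𝔭 : Ideal (RingOf K)) : Prop :=
  𝔭.IsMaximal ∧ (p : RingOf K) ∉ 𝔭 ∧ ∃ u : RingOf K, (∃ m : ℕ, u ∣ (p : RingOf K) ^ m) ∧
    (∀ z : RingOf K, u - z ^ p ∉ 𝔭) ∧ ∀ 𝔭' ∈ T, 𝔭' ≠ 𝔭 → ∃ z : RingOf K, u - z ^ p ∈ 𝔭'

end

/-- No character occurs if the class number of `𝓞_K[1/p]` is prime to `p` and the primes in `T` are
independent modulo `p`-th powers of `p`-units (and `K` is totally complex if `p = 2`). -/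
def ClassNumberCase (p : ℕ) : Prop :=
  ∀ (F : Type) [Field F] [NumberField F] (K : Ext F) (T : Set (Ideal (RingOf K))),
    FiniteDimensional F K → (p ≠ 2 ∨ IsTotallyComplex K) → ClassNumberAwayPrime p K → T.Finite →
    (∀ 𝔭 ∈ T, Independent p K T 𝔭) → ∀ χ : Chr F p, ¬ Occurs p K T χ

/-! ### Proofs -/

section
variable {F : Type} [Field F] [NumberField F] {p : ℕ} [hp : Fact p.Prime]

open Pool.Agent.Helper832_EG Pool.Agent.V5helper56.LI Pool.Agent.V5helper56.EQ

theorem away {K : Ext F} [NumberField K] {T : Set (Ideal (RingOf K))} {Q : Ideal (𝓞 (Bar F))}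
    (hQ : Q.IsMaximal) (hpQ : (p : 𝓞 (Bar F)) ∉ Q) (hQT : Q.under (𝓞 K) ∉ T)
    (hQn : p ∣ Ideal.absNorm (Q.under (𝓞 K)) - 1) : Away p K T Q := by
  refine ⟨hQ, hpQ, hQT, ?_⟩
  rw [Ideal.absNorm_apply, Submodule.cardQuot_apply] at hQn
  exact hQn

theorem not_occurs {K : Ext F} [NumberField K] {T : Set (Ideal (RingOf K))} {χ : Chr F p} (hχ : ¬ Occurs p K T χ)
    {Ψ : AbsGal F → ZMod p} (hΨ : Adm p K T Ψ)
    (he : ∀ γ : AbsGal F, ∀ x ∈ K.fixingSubgroup, Ψ (γ * x * γ⁻¹) = (χ γ : ZMod p) * Ψ x) :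
    ∀ x ∈ K.fixingSubgroup, Ψ x = 0 := by
  intro x hx
  by_contra hne
  exact hχ ⟨Ψ, ⟨hΨ.ch, ⟨x, hx, hne⟩, fun σ g hg _ => he σ g hg⟩,
    fun Q hQ hpQ hQT g hg hgK => hΨ.away Q hQ hpQ hQT g hg hgK,
    fun Q hQ hpQ g hg hgK => hΨ.above Q hQ hpQ g (fun y => (hg y).symm) hgK⟩

theorem no_unramified' (h : NoUnramified p F) (q : AbsGal F → ZMod p) (hq : IsCh (⊤ : Subgroup (AbsGal F)) q)
    (hunr : ∀ Q : Ideal (𝓞 (Bar F)), Q.IsMaximal → ∀ σ ∈ inertia Q, q σ = 0) : ∀ x, q x = 0 :=
  h q hq hunr

theorem main {K : Ext F} {T : Set (Ideal (RingOf K))} (hK : TameAbelian p K) (hTf : T.Finite)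
    (hTm : ∀ 𝔮 ∈ T, 𝔮.IsMaximal) {A : Type} [CommRing A] [IsLocalRing A] [TopologicalSpace A]
    (hA : Coefficients p A) {n : ℕ} {θ : Fin n → Chr F p} {ρ : AbsGal F →* GL (Fin n) A}
    (hρ : Admissible p K T θ ρ) (hX : ∀ i j, ¬ Occurs p K T (θ i * (θ j)⁻¹))
    {P : Ideal (ZBar F)} (hP : P.IsMaximal) (hpP : (p : ZBar F) ∈ P) : Conclusion p K ρ P := by
  haveI := hK.finite
  haveI := hA.noetherian
  haveI : NumberField K := NumberField.of_module_finite F K
  have hfld : Fld p K := ⟨hK.normal, hK.comm, hK.exp, hK.one⟩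
  have hrep : Rep p K T θ ρ := ⟨hρ.overK, hρ.cont, hρ.upper, hρ.diagonal,
    fun Q hQ hpQ hQT hQn σ hσ hσK => Units.ext (hρ.ram Q (away hQ hpQ hQT hQn) σ hσ hσK)⟩
  have hX' : ∀ i j, ∀ Ψ : AbsGal F → ZMod p, Adm p K T Ψ → (∀ γ : AbsGal F, ∀ x ∈ K.fixingSubgroup,
      Ψ (γ * x * γ⁻¹) = ((θ i γ * (θ j γ)⁻¹ : (ZMod p)ˣ) : ZMod p) * Ψ x) → ∀ x ∈ K.fixingSubgroup, Ψ x = 0 :=
    fun i j Ψ hΨ he => not_occurs (hX i j) hΨ he
  have hI : ∀ g ∈ K.fixingSubgroup, ∃ δ ∈ dec P ⊓ K.fixingSubgroup, ρ δ = ρ g := fun g hg =>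
    image_eq Pool.Agent.V5helper48.EQ.t_EIG Pool.Agent.V5helper4.EQ.t_MUL stp hfld hA.adic hA.char hrep hX' hP hpP hg
  refine ⟨fun g hg => ?_, fun g _ => ?_, fun hF ⟨K', hK', hunr⟩ => ?_⟩
  · obtain ⟨δ, hδ, h⟩ := hI g hg
    exact ⟨δ, ⟨fun x => (hδ.1 x).symm, hδ.2⟩, congrArg Units.val h.symm⟩
  · obtain ⟨δ, hδ, h⟩ := Pool.Agent.V5helper56.DU.image_decG K hK.one hP hpP hI g
    exact ⟨δ, fun x => (hδ x).symm, congrArg Units.val h.symm⟩
  · haveI := hK'
    have hfin : (Set.range ρ).Finite := finite_eq Pool.Agent.V5helper48.EQ.t_EIG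
      Pool.Agent.V5helper4.EQ.t_MUL stp hTf hTm hfld hA.adic hA.char hrep hX'
      (fun Ψ hΨ hinv hu => inv_zero hfld (no_unramified' hF) hΨ hinv hu) K'.fixingSubgroup
      (IntermediateField.fixingSubgroup_isOpen K')
      (fun Q hQ σ hσ _ hσK => Units.ext (hunr Q hQ σ hσ hσK)) hP hpP
    have h1 : Set.range (mat ρ) = (fun x : GL (Fin n) A => (x : Matrix (Fin n) (Fin n) A)) '' Set.range ρ := by
      rw [← Set.range_comp]
      rfl
    unfold FiniteImage
    rw [h1]
    exact hfin.image _

/-- functions defined by homomorphisms -/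
theorem occurs_fun {K : Ext F} {T : Set (Ideal (RingOf K))} {χ : Chr F p} (h : Occurs p K T χ) :
    ∃ Ψ : AbsGal F → ZMod p, IsCh K.fixingSubgroup Ψ ∧ (∃ x ∈ K.fixingSubgroup, Ψ x ≠ 0) ∧
      (∀ γ : AbsGal F, ∀ x ∈ K.fixingSubgroup, γ * x * γ⁻¹ ∈ K.fixingSubgroup →
        Ψ (γ * x * γ⁻¹) = (χ γ : ZMod p) * Ψ x) ∧
      (∀ Q : Ideal (𝓞 (Bar F)), Q.IsMaximal → (p : 𝓞 (Bar F)) ∉ Q → Q.under (𝓞 K) ∉ T → ∀ σ ∈ inertia Q,
        σ ∈ K.fixingSubgroup → Ψ σ = 0) ∧
      ∀ Q : Ideal (𝓞 (Bar F)), Q.IsMaximal → (p : 𝓞 (Bar F)) ∈ Q → ∀ σ : AbsGal F, σ ∈ dec Q →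
        σ ∈ K.fixingSubgroup → Ψ σ = 0 := by
  obtain ⟨f, ⟨hf, hne, hfe⟩, hf1, hf2⟩ := h
  exact ⟨f, hf, hne, hfe, hf1, fun Q hQ hpQ σ hσ hσK => hf2 Q hQ hpQ σ (fun x => (hσ x).symm) hσK⟩

theorem classNumberCase : ClassNumberCase p := by
  intro F _ _ K T hfin hinf hcl hTf hT χ h
  haveI := hfin
  haveI : NumberField K := NumberField.of_module_finite F K
  obtain ⟨Ψ, hΨ, ⟨x, hx, hne⟩, -, h1, h2⟩ := occurs_fun h
  exact hne (Pool.Agent.V5helper56.DU.chr F p hp K hinf hcl Ψ hΨ T hTf hT
    (fun Q hQ hpQ hQT _ σ hσ hσK => h1 Q hQ hpQ hQT σ hσ hσK) (fun Q hQ hpQ σ hσ hσK => h2 Q hQ hpQ σ hσ hσK) x hx)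

end

section
variable {p : ℕ} [hp : Fact p.Prime]

open Pool.Agent.Helper832_EG Pool.Agent.V5helper56.LI Pool.Agent.V5helper56.EQ

theorem noUnramified_rat (hp2 : p ≠ 2) : NoUnramified p ℚ :=
  fun f hf hunr => rat_zero hp2 f hf hunr

theorem cyclotomicCase : CyclotomicCase p := by
  refine ⟨noUnramified_rat, fun C hC => ?_⟩
  haveI hn : NumberField C := IsCyclotomicExtension.numberField {p} ℚ C
  have hf : Fld p C := cyc_fld C
  refine ⟨⟨inferInstance, hf.normal, hf.comm, hf.exp, hf.one⟩, fun hp2 h => ?_⟩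
  obtain ⟨Ψ, hΨ, ⟨x, hx, hne⟩, he, h1, h2⟩ := occurs_fun h
  refine hne (inv_zero hf (fun q hq hunr => rat_zero hp2 q hq hunr) hΨ (fun γ y hy => ?_) (fun Q hQ σ hσ hσK => ?_) x hx)
  · have h3 := he γ y hy (hf.normal.conj_mem y hy γ)
    rw [MonoidHom.one_apply, Units.val_one, one_mul] at h3
    exact h3
  · by_cases hpQ : (p : 𝓞 (Bar ℚ)) ∈ Q
    · exact h2 Q hQ hpQ σ (inertia_le_dec hσ) hσK
    · exact h1 Q hQ hpQ (Set.notMem_empty _) σ hσ hσK

end

/-- The theorem, and the two cases. -/
theorem result (p : ℕ) [Fact p.Prime] :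
    (∀ (F : Type) [Field F] [NumberField F] (K : Ext F) (T : Set (Ideal (RingOf K))),
      TameAbelian p K → T.Finite → (∀ 𝔮 ∈ T, 𝔮.IsMaximal) →
      ∀ (A : Type) [CommRing A] [IsLocalRing A] [TopologicalSpace A], Coefficients p A →
      ∀ (n : ℕ) (θ : Fin n → Chr F p) (ρ : AbsGal F →* GL (Fin n) A), Admissible p K T θ ρ →
      (∀ i j, ¬ Occurs p K T (θ i * (θ j)⁻¹)) →
      ∀ P : Ideal (ZBar F), P.IsMaximal → (p : ZBar F) ∈ P → Conclusion p K ρ P) ∧
    CyclotomicCase p ∧ ClassNumberCase p :=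
  ⟨fun _ _ _ _ _ hK hTf hTm _ _ _ _ hA _ _ _ hρ hX _ hP hpP => main hK hTf hTm hA hρ hX hP hpP,
    cyclotomicCase, classNumberCase⟩

end Pool.Agent.Results.MP_ca71b5_nt.Eigenspaces
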