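import Pool.Agent.V5helper62.RI.Cup

/-!
# Everywhere unramified representations of `p`-extensions of the rationals, dimension `≤ (p - 1)/e`

Let `p` be an odd prime and let `K` be a number field which is unramified at all primes outside a
finite set `S` of primes; the prime `p` is allowed in `S`. Let `A` be a discrete valuation ring of
characteristic `0` with finite residue field of characteristic `p` and absolute ramification index
at most `e`, for example `A = ℤ_p` and `e = 1`. Suppose that two characters `x ≠ 0`, `y` of the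
Galois group of `ℚ` with values in the residue field of `A`, unramified outside `S` and such that
`y` is only ramified where `x` is, are linearly dependent if their cup product vanishes. Then every
continuous `ρ : Gal(ℚbar/ℚ) → GL_n(A)`, `n e ≤ p - 1`, residually unipotent, whose restriction to
the absolute Galois group of `K` is everywhere unramified, has finite image. (If `n e < p - 1` then
there are no elements of order `p`, and `ρ` is trivial. The case of interest is `n e = p - 1`.)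
Examples are `p = 5` and the sets `S` whose members congruent to `1` modulo `5` are `11, 31, 101`
(without `5`) or `11, 31` (with `5`).
-/

set_option autoImplicit false

open NumberField Matrix IsLocalRing

namespace Pool.Agent.Results.MP_ca71b5_nt.RegularInertia

/-- The number field `K` is unramified at all primes that do not lie above a prime number in `S`:
the inertia groups at these primes in the absolute Galois group of `ℚ` fix `K`. -/
def FieldUnramifiedOutside (S : Finset ℕ) (K : IntermediateField ℚ (AlgebraicClosure ℚ)) : Prop :=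
  ∀ P : Ideal (𝓞 (AlgebraicClosure ℚ)), P.IsMaximal →
    (∀ l ∈ S, (l : 𝓞 (AlgebraicClosure ℚ)) ∉ P) →
      ∀ τ : Gal(AlgebraicClosure ℚ/ℚ), (∀ x : 𝓞 (AlgebraicClosure ℚ), τ • x - x ∈ P) →
        τ ∈ K.fixingSubgroup

/-- The restriction of `ρ` to the absolute Galois group of `K` is unramified at all finite
primes. -/
def UnramifiedOver {A : Type} [CommRing A] {n : ℕ}
    (K : IntermediateField ℚ (AlgebraicClosure ℚ))
    (ρ : Gal(AlgebraicClosure ℚ/ℚ) →* GL (Fin n) A) : Prop :=
  ∀ P : Ideal (𝓞 (AlgebraicClosure ℚ)), P.IsMaximal → ∀ τ ∈ K.fixingSubgroup,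
    (∀ x : 𝓞 (AlgebraicClosure ℚ), τ • x - x ∈ P) → ρ τ = 1

/-- Every `ρ g` is unipotent modulo the maximal ideal: some power of `ρ g - 1` has all entries in
the maximal ideal. -/
def ResiduallyUnipotent {A : Type} [CommRing A] [IsLocalRing A] {n : ℕ}
    (ρ : Gal(AlgebraicClosure ℚ/ℚ) →* GL (Fin n) A) : Prop :=
  ∀ g, ∃ M : ℕ, ∀ i j, (((ρ g : Matrix (Fin n) (Fin n) A) - 1) ^ M) i j ∈ maximalIdeal A

/-- The members of `S` congruent to `1` modulo `p`. -/
def Tame (p : ℕ) (S : Finset ℕ) : Finset ℕ := S.filter fun l => p ∣ l - 1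

/-- The linking number of the distinct primes `q` and `j`, with respect to a homomorphism
`χ : (ℤ/j)ˣ → ℤ/p`, as an element of a field `F` of characteristic `p`: the value of `χ` at the
class of `q` (and `0` if `j` divides `q`). -/
noncomputable def linking (F : Type) [Field F] {p : ℕ} (j q : ℕ)
    (χ : (ZMod j)ˣ →* Multiplicative (ZMod p)) : F :=
  open Classical in if h : Nat.Coprime q j then
    ((Multiplicative.toAdd (χ (ZMod.unitOfCoprime q h))).val : F) else 0

/-- Characters of `Gal(ℚbar/ℚ)` with values in `F` unramified outside `S` are given by vectors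
`(x_l)`, where `l` runs through `Tame p S`, and, if `p` is in `S`, an element `a` for the prime `p`;
the character is ramified at `l` (at `p`) if and only if `x_l ≠ 0` (`a ≠ 0`). The value at a
Frobenius element at `l` is `∑ λ_lj x_j + ((l - 1) / p) a` up to a multiple of `x_l`, and the value
at a Frobenius element at `p` is `∑ λ_pj x_j` up to a multiple of `a`. The condition says: if
`(x, a)` and `(y, b)` are two characters, `(y, b)` is ramified only where `(x, a)` is, and
`x_l y(Frob_l) = y_l x(Frob_l)` for all `l` in `Tame p S` and `a y(Frob_p) = b x(Frob_p)`, then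
`(y, b)` is a multiple of `(x, a)`. -/
def NoPair (F : Type) [Field F] (p : ℕ) (S : Finset ℕ)
    (χ : ∀ j : ℕ, (ZMod j)ˣ →* Multiplicative (ZMod p)) : Prop :=
  ∀ (x y : ℕ → F) (a b : F), (p ∉ S → a = 0 ∧ b = 0) →
    (∀ l ∈ Tame p S, x l = 0 → y l = 0) → (a = 0 → b = 0) →
    (∀ l ∈ Tame p S,
      x l * (∑ j ∈ Tame p S, linking F j l (χ j) * y j + (((l - 1) / p : ℕ) : F) * b) =
      y l * (∑ j ∈ Tame p S, linking F j l (χ j) * x j + (((l - 1) / p : ℕ) : F) * a)) →
    a * ∑ j ∈ Tame p S, linking F j p (χ j) * y j =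
      b * ∑ j ∈ Tame p S, linking F j p (χ j) * x j →
    ∃ c : F, b = c * a ∧ ∀ l ∈ Tame p S, y l = c * x l

/-! ### Linking numbers -/

theorem linking_eq {K : Type} [Field K] {p : ℕ} [hp : Fact p.Prime] [CharP K p] {j q : ℕ}
    (χ : (ZMod j)ˣ →* Multiplicative (ZMod p)) (x : (ZMod j)ˣ) (hx : (x : ZMod j) = (q : ZMod j)) :
    linking K j q χ = ZMod.castHom (dvd_refl p) K (Multiplicative.toAdd (χ x)) := by
  have : NeZero p := ⟨hp.out.ne_zero⟩
  have h : Nat.Coprime q j := by
    rw [← ZMod.isUnit_iff_coprime, ← hx]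
    exact x.isUnit
  unfold linking
  rw [dif_pos h, ZMod.castHom_apply, ZMod.natCast_val]
  congr 3
  exact Units.ext (by rw [hx]; rfl)

theorem linking_self {K : Type} [Field K] {p j : ℕ} (hj : j.Prime)
    (χ : (ZMod j)ˣ →* Multiplicative (ZMod p)) : linking K j j χ = 0 := by
  unfold linking
  rw [dif_neg]
  rw [Nat.coprime_self]
  exact hj.ne_one

/-! ### The examples -/

theorem exists_chi {j : ℕ} (hj : j.Prime) (h5j : 5 ∣ j - 1) (g : (ZMod j)ˣ)
    (hg : g ^ ((j - 1) / 5) ≠ 1) : ∃ χ : (ZMod j)ˣ →* Multiplicative (ZMod 5),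
      χ g = Multiplicative.ofAdd 1 := by
  obtain ⟨χ, h1, -⟩ := Pool.Agent.W134.FM.exists_quot Nat.prime_five hj h5j
  have h2 : χ g ≠ 1 := fun h => hg ((h1 g).1 h)
  have h3 : ∃ k : ℕ, χ g ^ k = Multiplicative.ofAdd 1 := by
    revert h2
    generalize χ g = z
    intro hz
    have h4 : ∀ z : Multiplicative (ZMod 5), z ≠ 1 → ∃ k : Fin 5, z ^ (k : ℕ) =
        Multiplicative.ofAdd 1 := by decide
    obtain ⟨k, hk⟩ := h4 z hz
    exact ⟨k, hk⟩
  obtain ⟨k, hk⟩ := h3
  exact ⟨χ ^ k, by rw [MonoidHom.pow_apply]; exact hk⟩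

theorem chi_val {j : ℕ} {χ : (ZMod j)ˣ →* Multiplicative (ZMod 5)} {g : (ZMod j)ˣ}
    (hg : χ g = Multiplicative.ofAdd 1) (a : ℕ) (c : (ZMod j)ˣ) {x : (ZMod j)ˣ}
    (h : (x : ZMod j) = (g : ZMod j) ^ a * (c : ZMod j) ^ 5) :
    χ x = Multiplicative.ofAdd (a : ZMod 5) := by
  have h1 : x = g ^ a * c ^ 5 := Units.ext (by
    rw [Units.val_mul, Units.val_pow_eq_pow_val, Units.val_pow_eq_pow_val]; exact h)
  have h2 : ∀ z : Multiplicative (ZMod 5), z ^ 5 = 1 := by decide
  rw [h1, map_mul, map_pow, map_pow, hg, h2, mul_one, ← ofAdd_nsmul, nsmul_eq_mul, mul_one]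

/-- characters for the primes `11, 31, 101` -/
theorem exists_chi3 (j : ℕ) : ∃ χ : (ZMod j)ˣ →* Multiplicative (ZMod 5),
    (j ∈ ({11, 31, 101} : Finset ℕ) → ∃ x, χ x ≠ 1) ∧
    (j = 11 → ∀ x : (ZMod j)ˣ,
      ((x : ZMod j) = ((5 : ℕ) : ZMod j) → χ x = Multiplicative.ofAdd 4) ∧
      ((x : ZMod j) = ((31 : ℕ) : ZMod j) → χ x = Multiplicative.ofAdd 1) ∧
      ((x : ZMod j) = ((101 : ℕ) : ZMod j) → χ x = Multiplicative.ofAdd 1)) ∧
    (j = 31 → ∀ x : (ZMod j)ˣ,
      ((x : ZMod j) = ((5 : ℕ) : ZMod j) → χ x = Multiplicative.ofAdd 0) ∧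
      ((x : ZMod j) = ((11 : ℕ) : ZMod j) → χ x = Multiplicative.ofAdd 3) ∧
      ((x : ZMod j) = ((101 : ℕ) : ZMod j) → χ x = Multiplicative.ofAdd 2)) ∧
    (j = 101 → ∀ x : (ZMod j)ˣ,
      ((x : ZMod j) = ((11 : ℕ) : ZMod j) → χ x = Multiplicative.ofAdd 3) ∧
      ((x : ZMod j) = ((31 : ℕ) : ZMod j) → χ x = Multiplicative.ofAdd 4)) := by
  have hne : ∀ {j : ℕ} {χ : (ZMod j)ˣ →* Multiplicative (ZMod 5)} {g : (ZMod j)ˣ},
      χ g = Multiplicative.ofAdd 1 → ∃ x, χ x ≠ 1 := by
    intro j χ g hg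
    refine ⟨g, ?_⟩
    rw [hg]
    decide
  by_cases hj : j ∈ ({11, 31, 101} : Finset ℕ)
  · have hj' := hj
    simp only [Finset.mem_insert, Finset.mem_singleton] at hj'
    rcases hj' with rfl | rfl | rfl
    · obtain ⟨χ, hχ⟩ := exists_chi (j := 11) (by norm_num) (by norm_num)
        (ZMod.unitOfCoprime 2 (by decide)) (by
          rw [Ne, Units.ext_iff, Units.val_pow_eq_pow_val, ZMod.coe_unitOfCoprime]
          decide)
      refine ⟨χ, fun _ => hne hχ, fun _ x => ⟨fun hx => ?_, fun hx => ?_, fun hx => ?_⟩,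
        fun h => absurd h (by decide), fun h => absurd h (by decide)⟩
      · rw [chi_val hχ 4 (ZMod.unitOfCoprime 1 (by decide)) (x := x) (by
          rw [hx]
          simp only [ZMod.coe_unitOfCoprime]
          decide)]
        decide
      · rw [chi_val hχ 1 (ZMod.unitOfCoprime 2 (by decide)) (x := x) (by
          rw [hx]
          simp only [ZMod.coe_unitOfCoprime]
          decide)]
        decide
      · rw [chi_val hχ 1 (ZMod.unitOfCoprime 1 (by decide)) (x := x) (by
          rw [hx]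
          simp only [ZMod.coe_unitOfCoprime]
          decide)]
        decide
    · obtain ⟨χ, hχ⟩ := exists_chi (j := 31) (by norm_num) (by norm_num)
        (ZMod.unitOfCoprime 3 (by decide)) (by
          rw [Ne, Units.ext_iff, Units.val_pow_eq_pow_val, ZMod.coe_unitOfCoprime]
          decide)
      refine ⟨χ, fun _ => hne hχ, fun h => absurd h (by decide),
        fun _ x => ⟨fun hx => ?_, fun hx => ?_, fun hx => ?_⟩, fun h => absurd h (by decide)⟩
      · rw [chi_val hχ 0 (ZMod.unitOfCoprime 7 (by decide)) (x := x) (by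
          rw [hx]
          simp only [ZMod.coe_unitOfCoprime]
          decide)]
        decide
      · rw [chi_val hχ 3 (ZMod.unitOfCoprime 7 (by decide)) (x := x) (by
          rw [hx]
          simp only [ZMod.coe_unitOfCoprime]
          decide)]
        decide
      · rw [chi_val hχ 2 (ZMod.unitOfCoprime 5 (by decide)) (x := x) (by
          rw [hx]
          simp only [ZMod.coe_unitOfCoprime]
          decide)]
        decide
    · obtain ⟨χ, hχ⟩ := exists_chi (j := 101) (by norm_num) (by norm_num)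
        (ZMod.unitOfCoprime 2 (by decide)) (by
          rw [Ne, Units.ext_iff, Units.val_pow_eq_pow_val, ZMod.coe_unitOfCoprime]
          decide)
      refine ⟨χ, fun _ => hne hχ, fun h => absurd h (by decide), fun h => absurd h (by decide),
        fun _ x => ⟨fun hx => ?_, fun hx => ?_⟩⟩
      · rw [chi_val hχ 3 (ZMod.unitOfCoprime 4 (by decide)) (x := x) (by
          rw [hx]
          simp only [ZMod.coe_unitOfCoprime]
          decide)]
        decide
      · rw [chi_val hχ 4 (ZMod.unitOfCoprime 19 (by decide)) (x := x) (by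
          rw [hx]
          simp only [ZMod.coe_unitOfCoprime]
          decide)]
        decide
  · refine ⟨1, fun h => absurd h hj, ?_, ?_, ?_⟩
    · rintro rfl
      exact absurd (by decide) hj
    · rintro rfl
      exact absurd (by decide) hj
    · rintro rfl
      exact absurd (by decide) hj

theorem of_wedge {F : Type} [Field F] {x y : ℕ → F} {a b : F} {T : Finset ℕ}
    (hxy : ∀ l ∈ T, x l = 0 → y l = 0) (hab : a = 0 → b = 0)
    (h1 : ∀ l ∈ T, ∀ m ∈ T, x l * y m = x m * y l) (h2 : ∀ l ∈ T, x l * b = a * y l) :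
    ∃ c : F, b = c * a ∧ ∀ l ∈ T, y l = c * x l := by
  by_cases h : ∃ m ∈ T, x m ≠ 0
  · obtain ⟨m, hm, hxm⟩ := h
    refine ⟨y m / x m, ?_, fun l hl => ?_⟩
    · rw [div_mul_eq_mul_div, eq_div_iff hxm]
      linear_combination h2 m hm
    · rw [div_mul_eq_mul_div, eq_div_iff hxm]
      linear_combination h1 m hm l hl
  · push Not at h
    by_cases ha : a = 0
    · exact ⟨0, by rw [hab ha, zero_mul], fun l hl => by rw [hxy l hl (h l hl), zero_mul]⟩
    · refine ⟨b / a, by rw [div_mul_cancel₀ _ ha], fun l hl => ?_⟩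
      rw [hxy l hl (h l hl), h l hl, mul_zero]

theorem char5 {F : Type} [Field F] [CharP F 5] : (2 : F) ≠ 0 ∧ (3 : F) ≠ 0 ∧ (5 : F) = 0 := by
  have h : ∀ n : ℕ, (n : F) = 0 ↔ 5 ∣ n := fun n => CharP.cast_eq_zero_iff F 5 n
  refine ⟨?_, ?_, ?_⟩
  · have := (h 2).not.2 (by decide)
    exact_mod_cast this
  · have := (h 3).not.2 (by decide)
    exact_mod_cast this
  · have := (h 5).2 (by decide)
    exact_mod_cast this

theorem nopair_tame {F : Type} [Field F] [CharP F 5] (S : Finset ℕ) (h5 : 5 ∉ S)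
    (hT : Tame 5 S = {11, 31, 101}) : ∃ χ : ∀ j : ℕ, (ZMod j)ˣ →* Multiplicative (ZMod 5),
      (∀ l ∈ Tame 5 S, ∃ x, χ l x ≠ 1) ∧ NoPair F 5 S χ := by
  have : Fact (Nat.Prime 5) := ⟨Nat.prime_five⟩
  choose χ hχ using exists_chi3
  obtain ⟨c2, c3, c5⟩ := char5 (F := F)
  have e : ∀ (j q : ℕ) (c : ZMod 5), Nat.Coprime q j →
      (∀ x : (ZMod j)ˣ, (x : ZMod j) = (q : ZMod j) → χ j x = Multiplicative.ofAdd c) →
      linking F j q (χ j) = ZMod.castHom (dvd_refl 5) F c := by
    intro j q c hcop h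
    rw [linking_eq (χ j) (ZMod.unitOfCoprime q hcop) (ZMod.coe_unitOfCoprime q hcop),
      h _ (ZMod.coe_unitOfCoprime q hcop), toAdd_ofAdd]
  have v2 : ZMod.castHom (dvd_refl 5) F 2 = 2 := map_ofNat _ 2
  have v3 : ZMod.castHom (dvd_refl 5) F 3 = 3 := map_ofNat _ 3
  have v4 : ZMod.castHom (dvd_refl 5) F 4 = 4 := map_ofNat _ 4
  have l1 : linking F 31 11 (χ 31) = 3 := by
    rw [e 31 11 3 (by decide) fun x => ((hχ 31).2.2.1 rfl x).2.1, v3]
  have l2 : linking F 101 11 (χ 101) = 3 := by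
    rw [e 101 11 3 (by decide) fun x => ((hχ 101).2.2.2 rfl x).1, v3]
  have l3 : linking F 11 31 (χ 11) = 1 := by
    rw [e 11 31 1 (by decide) fun x => ((hχ 11).2.1 rfl x).2.1, map_one]
  have l4 : linking F 101 31 (χ 101) = 4 := by
    rw [e 101 31 4 (by decide) fun x => ((hχ 101).2.2.2 rfl x).2, v4]
  have l5 : linking F 11 101 (χ 11) = 1 := by
    rw [e 11 101 1 (by decide) fun x => ((hχ 11).2.1 rfl x).2.2, map_one]
  have l6 : linking F 31 101 (χ 31) = 2 := by
    rw [e 31 101 2 (by decide) fun x => ((hχ 31).2.2.1 rfl x).2.2, v2]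
  have l7 : linking F 11 11 (χ 11) = 0 := linking_self (by norm_num) _
  have l8 : linking F 31 31 (χ 31) = 0 := linking_self (by norm_num) _
  have l9 : linking F 101 101 (χ 101) = 0 := linking_self (by norm_num) _
  refine ⟨χ, fun l hl => (hχ l).1 (hT ▸ hl), ?_⟩
  intro x y a b hab hxy hab' hrel _
  obtain ⟨rfl, rfl⟩ := hab h5
  rw [hT] at hxy hrel ⊢
  have hs : ∀ f : ℕ → F, ∑ i ∈ ({11, 31, 101} : Finset ℕ), f i = f 11 + (f 31 + f 101) :=
    fun f => by
      rw [Finset.sum_insert (by decide), Finset.sum_pair (by decide)]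
  have r1 := hrel 11 (by decide)
  have r2 := hrel 31 (by decide)
  have r3 := hrel 101 (by decide)
  rw [hs, hs, l7, l1, l2] at r1
  rw [hs, hs, l3, l8, l4] at r2
  rw [hs, hs, l5, l6, l9] at r3
  have w3 : x 31 * y 101 = x 101 * y 31 := by
    linear_combination r1 + 3 * r2 + 3 * r3 - (x 31 * y 101 - x 101 * y 31) * c5
  have w2 : x 11 * y 101 = x 101 * y 11 := by
    linear_combination - r3 - 2 * w3
  have w1 : x 11 * y 31 = x 31 * y 11 := by
    refine mul_left_cancel₀ c3 ?_
    linear_combination r1 - 3 * w2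
  refine of_wedge hxy hab' (fun l hl m hm => ?_) (fun l _ => by ring)
  simp only [Finset.mem_insert, Finset.mem_singleton] at hl hm
  rcases hl with rfl | rfl | rfl <;> rcases hm with rfl | rfl | rfl
  · rfl
  · exact w1
  · exact w2
  · exact w1.symm
  · rfl
  · exact w3
  · exact w2.symm
  · exact w3.symm
  · rfl

theorem nopair_wild {F : Type} [Field F] [CharP F 5] (S : Finset ℕ)
    (hT : Tame 5 S = {11, 31}) : ∃ χ : ∀ j : ℕ, (ZMod j)ˣ →* Multiplicative (ZMod 5),
      (∀ l ∈ Tame 5 S, ∃ x, χ l x ≠ 1) ∧ NoPair F 5 S χ := by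
  have : Fact (Nat.Prime 5) := ⟨Nat.prime_five⟩
  choose χ hχ using exists_chi3
  obtain ⟨c2, c3, c5⟩ := char5 (F := F)
  have e : ∀ (j q : ℕ) (c : ZMod 5), Nat.Coprime q j →
      (∀ x : (ZMod j)ˣ, (x : ZMod j) = (q : ZMod j) → χ j x = Multiplicative.ofAdd c) →
      linking F j q (χ j) = ZMod.castHom (dvd_refl 5) F c := by
    intro j q c hcop h
    rw [linking_eq (χ j) (ZMod.unitOfCoprime q hcop) (ZMod.coe_unitOfCoprime q hcop),
      h _ (ZMod.coe_unitOfCoprime q hcop), toAdd_ofAdd]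
  have v3 : ZMod.castHom (dvd_refl 5) F 3 = 3 := map_ofNat _ 3
  have v4 : ZMod.castHom (dvd_refl 5) F 4 = 4 := map_ofNat _ 4
  have l1 : linking F 31 11 (χ 31) = 3 := by
    rw [e 31 11 3 (by decide) fun x => ((hχ 31).2.2.1 rfl x).2.1, v3]
  have l3 : linking F 11 31 (χ 11) = 1 := by
    rw [e 11 31 1 (by decide) fun x => ((hχ 11).2.1 rfl x).2.1, map_one]
  have l4 : linking F 11 5 (χ 11) = 4 := by
    rw [e 11 5 4 (by decide) fun x => ((hχ 11).2.1 rfl x).1, v4]
  have l5 : linking F 31 5 (χ 31) = 0 := by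
    rw [e 31 5 0 (by decide) fun x => ((hχ 31).2.2.1 rfl x).1, map_zero]
  have l7 : linking F 11 11 (χ 11) = 0 := linking_self (by norm_num) _
  have l8 : linking F 31 31 (χ 31) = 0 := linking_self (by norm_num) _
  refine ⟨χ, fun l hl => (hχ l).1 ?_, ?_⟩
  · rw [hT] at hl
    simp only [Finset.mem_insert, Finset.mem_singleton] at hl ⊢
    omega
  intro x y a b _ hxy hab' hrel hrelp
  rw [hT] at hxy hrel hrelp ⊢
  have hs : ∀ f : ℕ → F, ∑ i ∈ ({11, 31} : Finset ℕ), f i = f 11 + f 31 :=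
    fun f => Finset.sum_pair (by decide)
  have r1 := hrel 11 (by decide)
  have r2 := hrel 31 (by decide)
  rw [hs, hs, l7, l1] at r1
  rw [hs, hs, l3, l8] at r2
  rw [hs, hs, l4, l5] at hrelp
  have n1 : (((11 - 1) / 5 : ℕ) : F) = 2 := by norm_num
  have n2 : (((31 - 1) / 5 : ℕ) : F) = 6 := by norm_num
  rw [n1] at r1
  rw [n2] at r2
  have w2 : x 11 * b = a * y 11 := by
    linear_combination hrelp + (x 11 * b - a * y 11) * c5
  have w1 : x 11 * y 31 = x 31 * y 11 := by
    refine mul_left_cancel₀ c3 ?_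
    linear_combination r1 - 2 * w2
  have w3 : x 31 * b = a * y 31 := by
    linear_combination r2 + w1 - (x 31 * b - a * y 31) * c5
  refine of_wedge hxy hab' (fun l hl m hm => ?_) (fun l hl => ?_)
  · simp only [Finset.mem_insert, Finset.mem_singleton] at hl hm
    rcases hl with rfl | rfl <;> rcases hm with rfl | rfl
    · rfl
    · exact w1
    · exact w1.symm
    · rfl
  · simp only [Finset.mem_insert, Finset.mem_singleton] at hl
    rcases hl with rfl | rfl
    · exact w2
    · exact w3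

/-! ### The theorem -/

theorem cts_of_continuous {A : Type} [CommRing A] [IsLocalRing A] [TopologicalSpace A]
    (hA : IsAdic (maximalIdeal A)) {n : ℕ} {ρ : Gal(AlgebraicClosure ℚ/ℚ) →* GL (Fin n) A}
    (hρ : Continuous ρ) (N : ℕ) : ∀ᶠ g in nhds (1 : Gal(AlgebraicClosure ℚ/ℚ)),
      Pool.Agent.V5helper62.RI.MJ (maximalIdeal A ^ N) ((ρ g : Matrix (Fin n) (Fin n) A) - 1) := by
  have h1 : ∀ i j : Fin n, ∀ᶠ g in nhds (1 : Gal(AlgebraicClosure ℚ/ℚ)),
      ((ρ g : Matrix (Fin n) (Fin n) A) - 1) i j ∈ maximalIdeal A ^ N := by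
    intro i j
    have hv : Continuous fun g => (ρ g : Matrix (Fin n) (Fin n) A) :=
      Units.continuous_val.comp hρ
    have hc : Continuous fun g => (ρ g : Matrix (Fin n) (Fin n) A) i j := hv.matrix_elem i j
    have h2 := hc.continuousAt (x := (1 : Gal(AlgebraicClosure ℚ/ℚ)))
    rw [ContinuousAt, map_one, Units.val_one] at h2
    have h3 := h2.eventually ((hA.hasBasis_nhds ((1 : Matrix (Fin n) (Fin n) A) i j)).mem_of_mem
      (i := N) trivial)
    filter_upwards [h3] with g hg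
    obtain ⟨y, hy, hy'⟩ := hg
    rw [Matrix.sub_apply, ← hy']
    simpa using hy
  have h2 : ∀ᶠ g in nhds (1 : Gal(AlgebraicClosure ℚ/ℚ)), ∀ i j : Fin n,
      ((ρ g : Matrix (Fin n) (Fin n) A) - 1) i j ∈ maximalIdeal A ^ N := by
    rw [Filter.eventually_all]
    intro i
    rw [Filter.eventually_all]
    exact h1 i
  exact h2

/-- The theorem. -/
theorem result (p : ℕ) [Fact p.Prime] (hp2 : p ≠ 2) (S : Finset ℕ) (hS : ∀ l ∈ S, l.Prime)
    (K : IntermediateField ℚ (AlgebraicClosure ℚ)) [FiniteDimensional ℚ K]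
    (hK : FieldUnramifiedOutside S K)
    (A : Type) [CommRing A] [IsDomain A] [IsDiscreteValuationRing A] [CharZero A]
    [TopologicalSpace A] (hA : IsAdic (maximalIdeal A)) (hfin : Finite (ResidueField A))
    (hpm : (p : A) ∈ maximalIdeal A) (e n : ℕ) (he : (p : A) ∉ maximalIdeal A ^ (e + 1))
    (hn : n * e ≤ p - 1)
    (ρ : Gal(AlgebraicClosure ℚ/ℚ) →* GL (Fin n) A) (hρ : Continuous ρ)
    (hur : UnramifiedOver K ρ) (hres : ResiduallyUnipotent ρ)
    (hX : (∃ χ : ∀ j : ℕ, (ZMod j)ˣ →* Multiplicative (ZMod p),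
        (∀ l ∈ Tame p S, ∃ x, χ l x ≠ 1) ∧ NoPair (ResidueField A) p S χ) ∨
      (p = 5 ∧ 5 ∉ S ∧ Tame 5 S = {11, 31, 101}) ∨ (p = 5 ∧ 5 ∈ S ∧ Tame 5 S = {11, 31})) :
    (Set.range ρ).Finite := by
  classical
  have hp : p.Prime := Fact.out
  -- the residue field
  have hpκ : ((p : ℕ) : ResidueField A) = 0 := by
    rw [← map_natCast (residue A), residue_eq_zero_iff]
    exact hpm
  have hchar : CharP (ResidueField A) p := by
    refine ⟨fun m => ⟨fun hm => ?_, ?_⟩⟩
    · by_contra hcon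
      have hcop : Nat.Coprime p m := (Nat.Prime.coprime_iff_not_dvd hp).2 hcon
      have h1 : ((Nat.gcdA p m * p + Nat.gcdB p m * m : ℤ) : ResidueField A) = 1 := by
        have h2 := Nat.gcd_eq_gcd_ab p m
        rw [hcop.gcd_eq_one] at h2
        rw [show (Nat.gcdA p m * p + Nat.gcdB p m * m : ℤ) = ((1 : ℕ) : ℤ) by rw [h2]; ring]
        simp
      push_cast at h1
      rw [hpκ, hm, mul_zero, mul_zero, add_zero] at h1
      exact zero_ne_one h1
    · rintro ⟨k, rfl⟩
      rw [Nat.cast_mul, hpκ, zero_mul]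
  obtain ⟨χ, hχ, hnp⟩ : ∃ χ : ∀ j : ℕ, (ZMod j)ˣ →* Multiplicative (ZMod p),
        (∀ l ∈ Tame p S, ∃ x, χ l x ≠ 1) ∧ NoPair (ResidueField A) p S χ := by
    rcases hX with h | ⟨h5, h, hT⟩ | ⟨h5, -, hT⟩
    · exact h
    · subst h5
      exact nopair_tame S h hT
    · subst h5
      exact nopair_wild S hT
  -- the exact ramification index
  obtain ⟨e0, he0, he1, hee⟩ : ∃ e0, (p : A) ∈ maximalIdeal A ^ e0 ∧
      (p : A) ∉ maximalIdeal A ^ (e0 + 1) ∧ e0 ≤ e := by
    have hex : ∃ k, (p : A) ∉ maximalIdeal A ^ (k + 1) := ⟨e, he⟩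
    refine ⟨Nat.find hex, ?_, Nat.find_spec hex, Nat.find_min' hex he⟩
    rcases Nat.eq_zero_or_pos (Nat.find hex) with h | h
    · rw [h, pow_zero, Ideal.one_eq_top]
      exact Submodule.mem_top
    · have h1 := Nat.find_min hex (m := Nat.find hex - 1) (by omega)
      rw [not_not, Nat.sub_add_cancel h] at h1
      exact h1
  -- inertia
  have hidx : K.fixingSubgroup.index ≠ 0 := by
    have : CompactSpace Gal(AlgebraicClosure ℚ/ℚ) :=
      inferInstanceAs (CompactSpace (Pool.Agent.W569.FM.GF ℚ))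
    have hfi : Finite (Gal(AlgebraicClosure ℚ/ℚ) ⧸ K.fixingSubgroup) :=
      Subgroup.quotient_finite_of_isOpen _ (IntermediateField.fixingSubgroup_isOpen K)
    rw [Subgroup.index_ne_zero_iff_finite]
    exact hfi
  have hipow : ∀ (P : Ideal (𝓞 (AlgebraicClosure ℚ))) (τ : Gal(AlgebraicClosure ℚ/ℚ)),
      (∀ x : 𝓞 (AlgebraicClosure ℚ), τ • x - x ∈ P) → ∀ (m : ℕ),
        ∀ x : 𝓞 (AlgebraicClosure ℚ), (τ ^ m) • x - x ∈ P := by
    intro P τ hτ m
    induction m with
    | zero => intro x; rw [pow_zero, one_smul, sub_self]; exact P.zero_mem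
    | succ m ih =>
      intro x
      have h1 := P.add_mem (ih (τ • x)) (hτ x)
      rw [pow_succ, mul_smul]
      rwa [sub_add_sub_cancel] at h1
  obtain ⟨P0, hP0, hpP0, -⟩ := (Pool.Agent.W571.FM.main p hp).1
  obtain ⟨d⟩ := Pool.Agent.TH831.OE.exists_dat hp2 (S.erase p)
    (fun l hl => ⟨hS l (Finset.mem_of_mem_erase hl), Finset.ne_of_mem_erase hl⟩) χ
    (fun l hl hpl => hχ l (Finset.mem_filter.2 ⟨Finset.mem_of_mem_erase hl, hpl⟩)) P0 hP0 hpP0
  refine Pool.Agent.V5helper62.RI.main hfin hpm he0 he1 (le_trans (Nat.mul_le_mul_left n hee) hn)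
    (cts_of_continuous hA hρ) (fun g => hres g) S ?_ ?_
    (Pool.Agent.V5helper62.RI.Tset d)
    (Pool.Agent.V5helper62.RI.tset_loc (fun l hl => hS l (Finset.mem_of_mem_erase hl)) hP0 d)
    (Pool.Agent.V5helper62.RI.cup_of S hS hP0 hpP0 d
      (ZMod.castHom (dvd_refl p) (ResidueField A)) (fun j l => linking (ResidueField A) j l (χ j))
      (fun j _ _ l _ _ x hx => linking_eq (χ j) x hx)
      (fun j hj => linking_self (hS j hj) (χ j)) hnp)
  · rintro g ⟨P, hP, h1, h2⟩
    exact hur P hP g (hK P hP h1 g h2) h2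
  · intro P hP τ hτ
    obtain ⟨m, hm, -, hmem⟩ := Subgroup.exists_pow_mem_of_index_ne_zero hidx τ
    exact ⟨m, by omega, hur P hP _ hmem (hipow P τ hτ m)⟩

end Pool.Agent.Results.MP_ca71b5_nt.RegularInertia
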