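import Pool.Agent.V5helper57.CP.Pl
import Pool.Agent.Q202.QT.Ker
import Pool.Agent.Results.MP_ca71b5_nt.RegularInertia

/-!
# Everywhere unramified representations: most triples and half of the quadruples of ramified primes

Let `p` be an odd prime. For a set `T` of prime numbers which are equal to `p` or congruent to `1`
modulo `p` we consider all number fields `K` which are unramified outside `T` and the primes which are
neither `p` nor congruent to `1` modulo `p`, and all discrete valuation rings `A` of characteristic `0`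
with finite residue field of characteristic `p`. We ask whether all continuous, residually unipotent
`ρ : Gal(ℚbar/ℚ) → GL_n(A)` whose restriction to the absolute Galois group of `K` is everywhere
unramified have finite image, in the following two cases: `n = 2` (and the absolute ramification index
`e` of `A` is arbitrary); `n e ≤ p - 1`.

Let `q₀` be `p` or a prime congruent to `1` modulo `p`. For at least the proportion `1 - 1/p` of all
primes `q₁ ≡ 1 mod p`, for at least the proportion `(1 - 1/p)²` of all primes `q₂ ≡ 1 mod p` (which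
depend on `q₁`), the answer is yes for `T = {q₀, q₁, q₂}`; and for at least the proportion
`(1 - 1/p)⁵ / 2` of all primes `q₃ ≡ 1 mod p` (which depend on `q₁` and `q₂`) it is yes for
`T = {q₀, q₁, q₂, q₃}` and all `A` with a residue field of odd degree over `ℤ/p` (for example
`A = ℤ_p`). By Golod and Shafarevich (not proved here) the maximal `p`-extension of `ℚ` unramified
outside four primes congruent to `1` modulo `p` is infinite.

Proof. By `RankTwoExtensions` and `RegularInertia` it is enough that any two characters of order `p`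
(with values in the residue field `F` of `A`) ramified only in `T`, whose cup product vanishes, are
dependent. In the Plücker coordinates `p_ij` of a plane in `F^4` this is a system of four linear
equations `∑_j λ_ij p_ij = 0`, so the planes with this property are the points of intersection of a
line with the Klein quadric. We show that there is none if the discriminant
`D = a² + b² + c² - 2ab - 2bc - 2ca` is not a square in `F`, where `a = B₁₂B₃₄`, `b = B₁₃B₂₄`,
`c = B₁₄B₂₃` and `B_ij` is the `2 × 2` minor of the matrix `(λ_kl)` with the rows `i`, `j` and the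
other two columns. If the linking numbers of three of the primes satisfy
`λ₁₂λ₂₃λ₃₁ ≠ λ₁₃λ₃₂λ₂₁` (which is the condition for triples), then the six minors `B_ij` are linear
coordinates of the linking numbers with the fourth prime, and `D` is a non-square for exactly
`p (p - 1)⁵ / 2` of the `p⁶` possibilities (`a = N x`, `b = N (1 - x)`, `c = 1` with `x` in the
quadratic extension of `ℤ/p`). The linking numbers of a new prime with the given ones are
equidistributed up to scaling (`Pool.Agent.Q202.QT.densN`, from the theorem of Chebotarev).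
-/

set_option autoImplicit false

open NumberField Matrix IsLocalRing

namespace Pool.Agent.Results.MP_ca71b5_nt.HalfOfQuadruples

open Finset Filter
open Pool.Agent.Q202.RT hiding D3
open Pool.Agent.Q202.QT
open Pool.Agent.V5helper57.CP
open Pool.Agent.Results.MP_ca71b5_nt.RegularInertia
  (FieldUnramifiedOutside UnramifiedOver ResiduallyUnipotent)

/-- `AlwaysFinite p odd T`: let `S` be any finite set of primes all of whose members which are equal to
`p` or congruent to `1` modulo `p` are in `T`, `K` any number field which is unramified at the primes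
outside `S`, `A` any discrete valuation ring of characteristic `0` with finite residue field of
characteristic `p` (of odd degree over `ℤ/p`, if `odd` holds), with its adic topology, and `n = 2` or
`n e ≤ p - 1`, where `p` has valuation at most `e` in `A`. Then every continuous
`ρ : Gal(ℚbar/ℚ) → GL_n(A)`, residually unipotent, whose restriction to the absolute Galois group of
`K` is unramified at all finite primes, has finite image. -/
def AlwaysFinite (p : ℕ) (odd : Prop) (T : Set ℕ) : Prop :=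
  ∀ S : Finset ℕ, (∀ l ∈ S, l.Prime) → (∀ l ∈ S, (l = p ∨ p ∣ l - 1) → l ∈ T) →
    ∀ (K : IntermediateField ℚ (AlgebraicClosure ℚ)) [FiniteDimensional ℚ K],
      FieldUnramifiedOutside S K →
    ∀ (A : Type) [CommRing A] [IsDomain A] [IsDiscreteValuationRing A] [CharZero A]
      [TopologicalSpace A], IsAdic (maximalIdeal A) → Finite (ResidueField A) →
      (p : A) ∈ maximalIdeal A → (odd → ∃ k : ℕ, Odd k ∧ Nat.card (ResidueField A) = p ^ k) →
    ∀ n e : ℕ, (n = 2 ∨ ((p : A) ∉ maximalIdeal A ^ (e + 1) ∧ n * e ≤ p - 1)) →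
    ∀ ρ : Gal(AlgebraicClosure ℚ/ℚ) →* GL (Fin n) A, Continuous ρ → UnramifiedOver K ρ →
      ResiduallyUnipotent ρ → (Set.range ρ).Finite

open Classical in
/-- The primes `q ≤ x` with `p ∣ q - 1`. -/
noncomputable def Pr (p x : ℕ) : Finset ℕ := (range (x + 1)).filter fun q => q.Prime ∧ p ∣ q - 1

open Classical in
/-- `Share p δ R T`: the primes `q ≡ 1 mod p`, `q ∉ T`, such that `T ∪ {q}` has the property `R` have at
least the proportion `δ` (lower density) among all primes `q ≡ 1 mod p`. -/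
def Share (p : ℕ) (δ : ℝ) (R : Set ℕ → Prop) (T : Set ℕ) : Prop :=
  ∀ ε : ℝ, 0 < ε → ∀ᶠ x : ℕ in atTop, (δ - ε) * ((Pr p x).card : ℝ) ≤
    (((Pr p x).filter fun q => q ∉ T ∧ R (insert q T)).card : ℝ)

theorem Pr_eq (p x : ℕ) [Fact p.Prime] : Pr p x = P1 p x := by
  ext l
  rw [mem_P1, Pr, mem_filter, mem_range]
  constructor
  · rintro ⟨h1, h2, h3⟩
    exact ⟨by omega, h2, h3⟩
  · rintro ⟨h1, h2, h3⟩
    exact ⟨by omega, h2, h3⟩

section
variable {p : ℕ} [hpF : Fact p.Prime]

/-- the criterion -/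
theorem always_of (hp2 : p ≠ 2) (χ : ∀ j : ℕ, (ZMod j)ˣ →* Multiplicative (ZMod p)) (hχ : Kr χ)
    (odd : Prop) {k : ℕ} (P : Fin k → ℕ) (hinj : Function.Injective P) (T : Set ℕ)
    (hT : T ⊆ Set.range P)
    (hN : ∀ (F : Type) [Field F] [CharP F p], Finite F →
      (odd → ∃ k : ℕ, Odd k ∧ Nat.card F = p ^ k) →
      NIc (fun i j => ZMod.castHom (dvd_refl p) F (Lk χ (P i) (P j)))) :
    AlwaysFinite p odd T := by
  have hp : p.Prime := hpF.out
  intro S hS hST K _ hK A _ _ _ _ _ hA hfin hpm hodd n e hne ρ hρ hur hres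
  have hchar : CharP (ResidueField A) p := Pool.Agent.TH831.OE.charP_res hp hpm
  have hpl : RankTwoExtensions.NoPlane (ResidueField A) p S χ :=
    noplane_of χ P hinj (fun l hl h => hT (hST l hl h)) (hN (ResidueField A) hfin hodd)
  rcases hne with rfl | ⟨he, hn⟩
  · refine RankTwoExtensions.result p hp2 S hS K hK A hA hfin hpm ρ hρ hur hres
      (Or.inl ⟨χ, fun l hl => ?_, hpl⟩)
    obtain ⟨h1, h2⟩ := mem_filter.1 hl
    exact (hχ l (hS l h1) h2).1
  · refine RegularInertia.result p hp2 S hS K hK A hA hfin hpm e n he hn ρ hρ hur hres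
      (Or.inl ⟨χ, fun l hl => ?_, ?_⟩)
    · obtain ⟨h1, h2⟩ := mem_filter.1 hl
      exact (hχ l (hS l h1) h2).1
    · intro x y a b hab hxy hab' hrel hrelp
      obtain ⟨c, d, hcd, h1, h2⟩ := hpl x y a b hab hrel hrelp
      by_cases hd : d = 0
      · have hc : c ≠ 0 := hcd.resolve_right (fun h => h hd)
        rw [hd, zero_mul] at h1
        have ha : a = 0 := (mul_eq_zero.1 h1).resolve_left hc
        refine ⟨0, by rw [hab' ha, zero_mul], fun l hl => ?_⟩
        have h3 := h2 l hl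
        rw [hd, zero_mul] at h3
        rw [hxy l hl ((mul_eq_zero.1 h3).resolve_left hc), zero_mul]
      · refine ⟨c / d, ?_, fun l hl => ?_⟩
        · rw [div_mul_eq_mul_div, h1, mul_div_cancel_left₀ _ hd]
        · rw [div_mul_eq_mul_div, h2 l hl, mul_div_cancel_left₀ _ hd]

theorem inj2 {a b : ℕ} (h : b ≠ a) : Function.Injective ![a, b] := by
  intro i j hij
  fin_cases i <;> fin_cases j <;> simp_all

theorem inj3 {a b c : ℕ} (h : b ≠ a) (h1 : c ≠ a) (h2 : c ≠ b) :
    Function.Injective ![a, b, c] := by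
  intro i j hij
  fin_cases i <;> fin_cases j <;> simp_all [eq_comm]

theorem inj4 {a b c d : ℕ} (h : b ≠ a) (h1 : c ≠ a) (h2 : c ≠ b) (h3 : d ≠ a) (h4 : d ≠ b)
    (h5 : d ≠ c) : Function.Injective ![a, b, c, d] := by
  intro i j hij
  fin_cases i <;> fin_cases j <;> simp_all [eq_comm]

/-- the last step -/
theorem last (hp2 : p ≠ 2) (χ : ∀ j : ℕ, (ZMod j)ˣ →* Multiplicative (ZMod p)) (hχ : Kr χ)
    {q₀ q₁ q₂ : ℕ} (h0 : Adm p q₀) (h1 : q₁.Prime ∧ p ∣ q₁ - 1) (h2 : q₂.Prime ∧ p ∣ q₂ - 1)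
    (n01 : q₁ ≠ q₀) (n02 : q₂ ≠ q₀) (n12 : q₂ ≠ q₁)
    (hD : D3 (Lk χ q₀ q₁) (Lk χ q₀ q₂) (Lk χ q₁ q₀) (Lk χ q₁ q₂) (Lk χ q₂ q₀) (Lk χ q₂ q₁) ≠ 0) :
    Share p ((1 - 1 / (p : ℝ)) ^ 5 / 2) (AlwaysFinite p True) (insert q₂ (insert q₁ {q₀})) := by
  classical
  have hp : p.Prime := hpF.out
  have hp0 : (0 : ℝ) < p := by exact_mod_cast hp.pos
  have h2F : (2 : ZMod p) ≠ 0 := by
    intro h
    have h6 : ((2 : ℕ) : ZMod p) = 0 := by exact_mod_cast h
    rw [ZMod.natCast_eq_zero_iff] at h6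
    exact hp2 ((Nat.prime_dvd_prime_iff_eq hp Nat.prime_two).1 h6)
  obtain ⟨g, hg⟩ := FiniteField.exists_nonsquare (F := ZMod p) (by
    rw [ZMod.ringChar_zmod_n]
    exact hp2)
  intro ε hε
  have hst := step (p := p) hp2 χ hχ ![q₀, q₁, q₂] h0 (fun i => by
      fin_cases i
      · exact h1
      · exact h2) (inj3 n01 n02 n12)
    (fun w s => ¬ IsSquare (D4 (Lk χ q₀ q₁) (Lk χ q₀ q₂) (w 0) (Lk χ q₁ q₀) (Lk χ q₁ q₂) (w 1)
      (Lk χ q₂ q₀) (Lk χ q₂ q₁) (w 2) (s 0) (s 1) (s 2)))
    (fun w s h hw => h (by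
      subst hw
      refine ⟨0, ?_⟩
      unfold D4 Kl
      simp only [Pi.zero_apply]
      ring))
    (fun w s c hc h hs => h (by
      obtain ⟨z, hz⟩ := hs
      refine ⟨z / c, ?_⟩
      rw [div_mul_div_comm, ← hz]
      rw [eq_div_iff (mul_ne_zero hc hc)]
      unfold D4 Kl
      ring)) ((1 - 1 / (p : ℝ)) ^ 5 / 2) (by
      have hb : 1 / (p : ℝ) ≤ 1 := by
        rw [div_le_one hp0]
        exact_mod_cast hp.one_lt.le
      have h3 : (1 - 1 / (p : ℝ)) ^ 5 ≤ 1 := pow_le_one₀ (by linarith) (by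
        have : 0 ≤ 1 / (p : ℝ) := by positivity
        linarith)
      linarith) (by
      have hc := count4 h2F hg hD
      rw [ZMod.card] at hc
      have hc' : (p : ℝ) * ((p : ℝ) - 1) ^ 5 ≤ 2 *
          (((univ : Finset ((Fin 3 → ZMod p) × (Fin 3 → ZMod p))).filter fun z =>
            ¬ IsSquare (D4 (Lk χ q₀ q₁) (Lk χ q₀ q₂) (z.1 0) (Lk χ q₁ q₀) (Lk χ q₁ q₂) (z.1 1)
              (Lk χ q₂ q₀) (Lk χ q₂ q₁) (z.1 2) (z.2 0) (z.2 1) (z.2 2))).card : ℝ) := by
        have h4 : ((p - 1 : ℕ) : ℝ) = (p : ℝ) - 1 := by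
          rw [Nat.cast_sub hp.one_lt.le, Nat.cast_one]
        rw [← h4]
        refine le_trans (le_of_eq (by push_cast; rfl)) ((Nat.cast_le (α := ℝ).2 hc).trans
          (le_of_eq ?_))
        push_cast
        congr!
      have h5 : (1 - 1 / (p : ℝ)) ^ 5 / 2 * ((p : ℝ) ^ (2 + 1) * (p : ℝ) ^ (2 + 1)) =
          (p : ℝ) * ((p : ℝ) - 1) ^ 5 / 2 := by
        field_simp
        ring
      rw [h5]
      have h6 : (p : ℝ) * ((p : ℝ) - 1) ^ 5 / 2 ≤
          (((univ : Finset ((Fin 3 → ZMod p) × (Fin 3 → ZMod p))).filter fun z =>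
            ¬ IsSquare (D4 (Lk χ q₀ q₁) (Lk χ q₀ q₂) (z.1 0) (Lk χ q₁ q₀) (Lk χ q₁ q₂) (z.1 1)
              (Lk χ q₂ q₀) (Lk χ q₂ q₁) (z.1 2) (z.2 0) (z.2 1) (z.2 2))).card : ℝ) := by
        linarith
      refine h6.trans (le_of_eq ?_)
      congr!) ε hε
  filter_upwards [hst] with x hx
  rw [Pr_eq]
  refine le_trans hx (Nat.cast_le.2 (card_le_card ?_))
  intro q hq
  simp only [Finset.mem_filter] at hq
  obtain ⟨g1, g2, g3⟩ := hq
  obtain ⟨-, hqp, hpq⟩ := mem_P1.1 g1
  have m0 : q ≠ q₀ := g2 0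
  have m1 : q ≠ q₁ := g2 1
  have m2 : q ≠ q₂ := g2 2
  simp only [Finset.mem_filter]
  refine ⟨g1, ?_, ?_⟩
  · simp only [Set.mem_insert_iff, Set.mem_singleton_iff, not_or]
    exact ⟨m2, m1, m0⟩
  · refine always_of hp2 χ hχ True ![q₀, q₁, q₂, q] (inj4 n01 n02 n12 m0 m1 m2) _ ?_ ?_
    · rintro l (rfl | rfl | rfl | rfl)
      · exact ⟨3, rfl⟩
      · exact ⟨2, rfl⟩
      · exact ⟨1, rfl⟩
      · exact ⟨0, rfl⟩
    · intro F _ _ _ hodd
      obtain ⟨k, hk, hcard⟩ := hodd trivial
      apply nic_four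
      rw [d4_map (ZMod.castHom (dvd_refl p) F)
        (fun i j => Lk χ (![q₀, q₁, q₂, q] i) (![q₀, q₁, q₂, q] j))]
      exact nonsq_odd hp2 hk hcard g3

/-- the second step -/
theorem second (hp2 : p ≠ 2) (χ : ∀ j : ℕ, (ZMod j)ˣ →* Multiplicative (ZMod p)) (hχ : Kr χ)
    {q₀ q₁ : ℕ} (h0 : Adm p q₀) (h1 : q₁.Prime ∧ p ∣ q₁ - 1) (n01 : q₁ ≠ q₀)
    (hD : Lk χ q₀ q₁ ≠ 0) :
    Share p ((1 - 1 / (p : ℝ)) ^ 2) (fun T => AlwaysFinite p False T ∧
      Share p ((1 - 1 / (p : ℝ)) ^ 5 / 2) (AlwaysFinite p True) T) (insert q₁ {q₀}) := by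
  classical
  have hp : p.Prime := hpF.out
  have hp0 : (0 : ℝ) < p := by exact_mod_cast hp.pos
  intro ε hε
  have hst := step (p := p) hp2 χ hχ ![q₀, q₁] h0 (fun i => by
      fin_cases i
      exact h1) (inj2 n01)
    (fun w s => D3 (Lk χ q₀ q₁) (w 0) (Lk χ q₁ q₀) (w 1) (s 0) (s 1) ≠ 0)
    (fun w s h hw => h (by
      subst hw
      unfold D3
      simp only [Pi.zero_apply]
      ring))
    (fun w s c hc h hs => h (by
      refine mul_left_cancel₀ hc ?_
      rw [mul_zero, ← hs]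
      unfold D3
      ring)) ((1 - 1 / (p : ℝ)) ^ 2) (by
      have hb : 1 / (p : ℝ) ≤ 1 := by
        rw [div_le_one hp0]
        exact_mod_cast hp.one_lt.le
      exact pow_le_one₀ (by linarith) (by
        have : 0 ≤ 1 / (p : ℝ) := by positivity
        linarith)) (by
      have hc := count3 (n21 := Lk χ q₁ q₀) hD
      rw [ZMod.card] at hc
      have hc' : (p : ℝ) ^ 2 * ((p : ℝ) - 1) ^ 2 ≤
          (((univ : Finset ((Fin 2 → ZMod p) × (Fin 2 → ZMod p))).filter fun z =>
            D3 (Lk χ q₀ q₁) (z.1 0) (Lk χ q₁ q₀) (z.1 1) (z.2 0) (z.2 1) ≠ 0).card : ℝ) := by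
        have h4 : ((p - 1 : ℕ) : ℝ) = (p : ℝ) - 1 := by
          rw [Nat.cast_sub hp.one_lt.le, Nat.cast_one]
        rw [← h4]
        refine le_trans (le_of_eq (by push_cast; rfl)) ((Nat.cast_le (α := ℝ).2 hc).trans
          (le_of_eq ?_))
        congr!
      have h5 : (1 - 1 / (p : ℝ)) ^ 2 * ((p : ℝ) ^ (1 + 1) * (p : ℝ) ^ (1 + 1)) =
          (p : ℝ) ^ 2 * ((p : ℝ) - 1) ^ 2 := by
        field_simp
        ring
      rw [h5]
      refine hc'.trans (le_of_eq ?_)
      congr!) ε hε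
  filter_upwards [hst] with x hx
  rw [Pr_eq]
  refine le_trans hx (Nat.cast_le.2 (card_le_card ?_))
  intro q hq
  simp only [Finset.mem_filter] at hq
  obtain ⟨g1, g2, g3⟩ := hq
  obtain ⟨-, hqp, hpq⟩ := mem_P1.1 g1
  have m0 : q ≠ q₀ := g2 0
  have m1 : q ≠ q₁ := g2 1
  simp only [Finset.mem_filter]
  refine ⟨g1, ?_, ?_, ?_⟩
  · simp only [Set.mem_insert_iff, Set.mem_singleton_iff, not_or]
    exact ⟨m1, m0⟩
  · refine always_of hp2 χ hχ False ![q₀, q₁, q] (inj3 n01 m0 m1) _ ?_ ?_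
    · rintro l (rfl | rfl | rfl)
      · exact ⟨2, rfl⟩
      · exact ⟨1, rfl⟩
      · exact ⟨0, rfl⟩
    · intro F _ _ _ _
      apply nic_three
      rw [d3_map (ZMod.castHom (dvd_refl p) F), Ne, map_eq_zero]
      exact g3
  · exact last hp2 χ hχ h0 h1 ⟨hqp, hpq⟩ n01 m0 m1 g3

end

/-- **Most triples and half of the quadruples of ramified primes.** -/
theorem result (p : ℕ) [Fact p.Prime] (hp2 : p ≠ 2) (q₀ : ℕ)
    (h0 : q₀ = p ∨ (q₀.Prime ∧ p ∣ q₀ - 1)) :
    Share p (1 - 1 / (p : ℝ)) (Share p ((1 - 1 / (p : ℝ)) ^ 2) fun T => AlwaysFinite p False T ∧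
      Share p ((1 - 1 / (p : ℝ)) ^ 5 / 2) (AlwaysFinite p True) T) {q₀} := by
  classical
  have hp : p.Prime := Fact.out
  have hp0 : (0 : ℝ) < p := by exact_mod_cast hp.pos
  obtain ⟨χ, hχ, -⟩ := extend (p := p) (fun _ => 1) ∅ (fun j hj => absurd hj (Set.notMem_empty j))
  intro ε hε
  have hst := step (p := p) hp2 χ hχ ![q₀] h0 (fun i => i.elim0) (fun i j _ => Subsingleton.elim (α := Fin 1) i j)
    (fun w _ => w 0 ≠ 0) (fun w s h hw => h (by rw [hw]; rfl))
    (fun w s c hc h hs => h ((mul_eq_zero.1 hs).resolve_left hc)) (1 - 1 / (p : ℝ)) (by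
      have : 0 ≤ 1 / (p : ℝ) := by positivity
      linarith) (by
      have hc := count2 (F := ZMod p)
      rw [ZMod.card] at hc
      have hc' : (p : ℝ) * ((p : ℝ) - 1) ≤
          (((univ : Finset ((Fin 1 → ZMod p) × (Fin 1 → ZMod p))).filter fun z =>
            z.1 0 ≠ 0).card : ℝ) := by
        have h4 : ((p - 1 : ℕ) : ℝ) = (p : ℝ) - 1 := by
          rw [Nat.cast_sub hp.one_lt.le, Nat.cast_one]
        rw [← h4]
        refine le_trans (le_of_eq (by push_cast; rfl)) ((Nat.cast_le (α := ℝ).2 hc).trans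
          (le_of_eq ?_))
        congr!
      have h5 : (1 - 1 / (p : ℝ)) * ((p : ℝ) ^ (0 + 1) * (p : ℝ) ^ (0 + 1)) =
          (p : ℝ) * ((p : ℝ) - 1) := by
        field_simp
        ring
      rw [h5]
      refine hc'.trans (le_of_eq ?_)
      congr!) ε hε
  filter_upwards [hst] with x hx
  rw [Pr_eq]
  refine le_trans hx (Nat.cast_le.2 (card_le_card ?_))
  intro q hq
  simp only [Finset.mem_filter] at hq
  obtain ⟨g1, g2, g3⟩ := hq
  obtain ⟨-, hqp, hpq⟩ := mem_P1.1 g1
  have m0 : q ≠ q₀ := g2 0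
  simp only [Finset.mem_filter]
  refine ⟨g1, ?_, ?_⟩
  · simp only [Set.mem_singleton_iff]
    exact m0
  · exact second hp2 χ hχ h0 ⟨hqp, hpq⟩ m0 g3

end Pool.Agent.Results.MP_ca71b5_nt.HalfOfQuadruples
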